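import Mathlib

set_option autoImplicit false

/-! Definitions for controlled strongly graded rings (problem MP_26bbbf_al). -/

namespace Pool.Agent.H73.Controlled

universe u v

section Defs

variable {G : Type u} [Group G] {R : Type v} [Ring R]

open Classical in
/-- The additive subgroups `𝒜 g` (`g ∈ G`) make `R` a `G`-graded ring: `R` is their internal
direct sum, `1 ∈ 𝒜 1`, and `𝒜 g * 𝒜 h ⊆ 𝒜 (g * h)` for all `g, h`. -/
structure IsGrading (𝒜 : G → AddSubgroup R) : Prop where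
  isInternal : DirectSum.IsInternal 𝒜
  one_mem : (1 : R) ∈ 𝒜 1
  mul_mem : ∀ (g h : G) (x y : R), x ∈ 𝒜 g → y ∈ 𝒜 h → x * y ∈ 𝒜 (g * h)

/-- The grading is strong: for all `g, h`, the component `𝒜 (g * h)` is the set of finite sums of
products `x * y` with `x ∈ 𝒜 g` and `y ∈ 𝒜 h`. -/
def IsStrong (𝒜 : G → AddSubgroup R) : Prop :=
  ∀ g h : G, AddSubgroup.closure {z : R | ∃ x ∈ 𝒜 g, ∃ y ∈ 𝒜 h, x * y = z} = 𝒜 (g * h)

/-- `R_H`, the sum of the components `𝒜 h` with `h ∈ H`. -/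
def part (𝒜 : G → AddSubgroup R) (H : Set G) : AddSubgroup R := ⨆ h ∈ H, 𝒜 h

/-- `M` is an `R_e`-sub-bimodule of `R`, where `R_e = 𝒜 1`. -/
def IsSubBimodule (𝒜 : G → AddSubgroup R) (M : AddSubgroup R) : Prop :=
  ∀ a ∈ 𝒜 1, ∀ m ∈ M, a * m ∈ M ∧ m * a ∈ M

/-- `M` and `N` are isomorphic as `R_e`-bimodules. -/
def BimoduleIso (𝒜 : G → AddSubgroup R) (M N : AddSubgroup R) : Prop :=
  ∃ f : M ≃+ N, ∀ a ∈ 𝒜 1, ∀ x y : M,
    ((y : R) = a * x → ((f y : N) : R) = a * (f x : N)) ∧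
    ((y : R) = x * a → ((f y : N) : R) = (f x : N) * a)

/-- `R` is `G`-controlled: `H ↦ R_H` is a bijection from the subsets of `G` onto the
`R_e`-sub-bimodules of `R`, and `R_S`, `R_T` are isomorphic `R_e`-bimodules only if `S = T`. -/
structure IsControlled (𝒜 : G → AddSubgroup R) : Prop where
  bijOn : Set.BijOn (part 𝒜) Set.univ {M : AddSubgroup R | IsSubBimodule 𝒜 M}
  eq_of_iso : ∀ S T : Set G, BimoduleIso 𝒜 (part 𝒜 S) (part 𝒜 T) → S = T

/-- `R` is a `G`-crossed product: every component contains a unit of `R`. -/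
def IsCrossedProduct (𝒜 : G → AddSubgroup R) : Prop :=
  ∀ g : G, ∃ w : Rˣ, (w : R) ∈ 𝒜 g

end Defs

end Pool.Agent.H73.Controlled
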