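import Pool.Agent.H73.ControlledDefs

set_option autoImplicit false

namespace Pool.Agent.H73.Controlled

universe u v

section General

variable {G : Type u} [Group G] {R : Type v} [Ring R] {𝒜 : G → AddSubgroup R}

open Classical in
/-- Homogeneous components. -/
theorem exists_proj (h : IsGrading 𝒜) : ∃ π : G → R →+ R,
    (∀ g x, π g x ∈ 𝒜 g) ∧ (∀ g x, x ∈ 𝒜 g → π g x = x) ∧
    (∀ g k x, g ≠ k → x ∈ 𝒜 k → π g x = 0) ∧
    (∀ x, ∃ s : Finset G, (∀ g, g ∉ s → π g x = 0) ∧ x = ∑ g ∈ s, π g x) := by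
  let _ := h.isInternal.chooseDecomposition
  refine ⟨fun g => ((𝒜 g).subtype.comp (DFinsupp.evalAddMonoidHom g)).comp
    (DirectSum.decomposeAddEquiv 𝒜).toAddMonoidHom, ?_, ?_, ?_, ?_⟩
  · intro g x
    exact (DirectSum.decompose 𝒜 x g).2
  · intro g x hx
    exact DirectSum.decompose_of_mem_same 𝒜 hx
  · intro g k x hgk hx
    exact DirectSum.decompose_of_mem_ne 𝒜 hx (Ne.symm hgk)
  · intro x
    refine ⟨DFinsupp.support (DirectSum.decompose 𝒜 x), ?_, ?_⟩
    · intro g hg
      have h1 : DirectSum.decompose 𝒜 x g = 0 := by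
        simpa using hg
      show ((DirectSum.decompose 𝒜 x g : 𝒜 g) : R) = 0
      rw [h1]
      rfl
    · exact (DirectSum.sum_support_decompose 𝒜 x).symm

theorem proj_mul_left {π : G → R →+ R} (h : IsGrading 𝒜)
    (h1 : ∀ g x, π g x ∈ 𝒜 g) (h2 : ∀ g x, x ∈ 𝒜 g → π g x = x)
    (h3 : ∀ g k x, g ≠ k → x ∈ 𝒜 k → π g x = 0)
    (h4 : ∀ x, ∃ s : Finset G, (∀ g, g ∉ s → π g x = 0) ∧ x = ∑ g ∈ s, π g x)
    (g : G) (a x : R) (ha : a ∈ 𝒜 1) : π g (a * x) = a * π g x := by
  classical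
  obtain ⟨s, hs, hx⟩ := h4 x
  have e : ∀ k, a * π k x ∈ 𝒜 k := by
    intro k
    have := h.mul_mem 1 k a (π k x) ha (h1 k x)
    rwa [one_mul] at this
  have e1 : π g (a * x) = ∑ k ∈ s, π g (a * π k x) := by
    conv_lhs => rw [hx, Finset.mul_sum, map_sum]
  rw [e1]
  by_cases hg : g ∈ s
  · rw [Finset.sum_eq_single g]
    · exact h2 g _ (e g)
    · intro k _ hk
      exact h3 g k _ (Ne.symm hk) (e k)
    · intro hg'
      exact absurd hg hg'
  · rw [hs g hg, mul_zero]
    refine Finset.sum_eq_zero fun k hk => h3 g k _ ?_ (e k)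
    rintro rfl
    exact hg hk

theorem proj_mul_right {π : G → R →+ R} (h : IsGrading 𝒜)
    (h1 : ∀ g x, π g x ∈ 𝒜 g) (h2 : ∀ g x, x ∈ 𝒜 g → π g x = x)
    (h3 : ∀ g k x, g ≠ k → x ∈ 𝒜 k → π g x = 0)
    (h4 : ∀ x, ∃ s : Finset G, (∀ g, g ∉ s → π g x = 0) ∧ x = ∑ g ∈ s, π g x)
    (g : G) (a x : R) (ha : a ∈ 𝒜 1) : π g (x * a) = π g x * a := by
  classical
  obtain ⟨s, hs, hx⟩ := h4 x
  have e : ∀ k, π k x * a ∈ 𝒜 k := by
    intro k
    have := h.mul_mem k 1 (π k x) a (h1 k x) ha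
    rwa [mul_one] at this
  have e1 : π g (x * a) = ∑ k ∈ s, π g (π k x * a) := by
    conv_lhs => rw [hx, Finset.sum_mul, map_sum]
  rw [e1]
  by_cases hg : g ∈ s
  · rw [Finset.sum_eq_single g]
    · exact h2 g _ (e g)
    · intro k _ hk
      exact h3 g k _ (Ne.symm hk) (e k)
    · intro hg'
      exact absurd hg hg'
  · rw [hs g hg, zero_mul]
    refine Finset.sum_eq_zero fun k hk => h3 g k _ ?_ (e k)
    rintro rfl
    exact hg hk

omit [Group G] in
/-- Elements of the closure of products as sums over lists. -/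
theorem exists_list (g k : G) (z : R)
    (hz : z ∈ AddSubgroup.closure {z : R | ∃ x ∈ 𝒜 g, ∃ y ∈ 𝒜 k, x * y = z}) :
    ∃ l : List (R × R), (∀ p ∈ l, p.1 ∈ 𝒜 g ∧ p.2 ∈ 𝒜 k) ∧
      (l.map (fun p => p.1 * p.2)).sum = z := by
  induction hz using AddSubgroup.closure_induction with
  | mem z hz =>
    obtain ⟨x, hx, y, hy, rfl⟩ := hz
    exact ⟨[(x, y)], by simp [hx, hy], by simp⟩
  | zero => exact ⟨[], by simp, by simp⟩
  | add x y _ _ hx hy =>
    obtain ⟨l1, h1, e1⟩ := hx
    obtain ⟨l2, h2, e2⟩ := hy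
    refine ⟨l1 ++ l2, ?_, ?_⟩
    · intro p hp
      rcases List.mem_append.1 hp with hp | hp
      · exact h1 p hp
      · exact h2 p hp
    · rw [List.map_append, List.sum_append, e1, e2]
  | neg x _ hx =>
    obtain ⟨l1, h1, e1⟩ := hx
    refine ⟨l1.map (fun p => (-p.1, p.2)), ?_, ?_⟩
    · intro p hp
      obtain ⟨q, hq, rfl⟩ := List.mem_map.1 hp
      exact ⟨(𝒜 g).neg_mem (h1 q hq).1, (h1 q hq).2⟩
    · rw [List.map_map, ← e1]
      clear h1 e1
      induction l1 with
      | nil => simp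
      | cons p l ih =>
        simp only [List.map_cons, List.sum_cons, Function.comp_apply, neg_add_rev, ih]
        rw [neg_mul, add_comm]

theorem one_list (h : IsGrading 𝒜) (hs : IsStrong 𝒜) (g : G) :
    ∃ l : List (R × R), (∀ p ∈ l, p.1 ∈ 𝒜 g ∧ p.2 ∈ 𝒜 g⁻¹) ∧
      (l.map (fun p => p.1 * p.2)).sum = 1 := by
  apply exists_list
  rw [hs g g⁻¹, mul_inv_cancel]
  exact h.one_mem

theorem list_mul_left (c : R) (l : List (R × R)) :
    c * (l.map (fun p => p.1 * p.2)).sum = (l.map (fun p => c * p.1 * p.2)).sum := by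
  induction l with
  | nil => simp
  | cons p l ih => simp only [List.map_cons, List.sum_cons, mul_add, ih, mul_assoc]

theorem list_mul_right (c : R) (l : List (R × R)) :
    (l.map (fun p => p.1 * p.2)).sum * c = (l.map (fun p => p.1 * (p.2 * c))).sum := by
  induction l with
  | nil => simp
  | cons p l ih => simp only [List.map_cons, List.sum_cons, add_mul, ih, mul_assoc]

theorem list_sum_mem (M : AddSubgroup R) (l : List (R × R)) (f : R × R → R)
    (h : ∀ p ∈ l, f p ∈ M) : (l.map f).sum ∈ M := by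
  induction l with
  | nil => simp
  | cons p l ih =>
    simp only [List.map_cons, List.sum_cons]
    exact M.add_mem (h p (by simp)) (ih fun q hq => h q (by simp [hq]))

/-- If `x ∈ R` is killed by left multiplication with all of `𝒜 g⁻¹` then `x = 0`. -/
theorem eq_zero_of_left (h : IsGrading 𝒜) (hs : IsStrong 𝒜) (g : G) (x : R)
    (hx : ∀ y ∈ 𝒜 g⁻¹, y * x = 0) : x = 0 := by
  obtain ⟨l, hl, e⟩ := one_list h hs g
  have h1 := list_mul_right x l
  rw [e, one_mul] at h1
  have h2 : (l.map (fun p => p.1 * (p.2 * x))).sum ∈ (⊥ : AddSubgroup R) := by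
    apply list_sum_mem
    intro p hp
    rw [hx p.2 (hl p hp).2, mul_zero]
    exact AddSubgroup.zero_mem _
  rw [h1]
  simpa using h2

/-- Simplicity of all components. -/
theorem simple_comp (h : IsGrading 𝒜) (hs : IsStrong 𝒜)
    (hsim : ∀ I : AddSubgroup R, I ≤ 𝒜 1 → IsSubBimodule 𝒜 I → I = ⊥ ∨ I = 𝒜 1)
    (g : G) (M : AddSubgroup R) (hM : M ≤ 𝒜 g) (hMb : IsSubBimodule 𝒜 M) (m : R) (hm : m ∈ M)
    (hm0 : m ≠ 0) : 𝒜 g ≤ M := by
  let I : AddSubgroup R := AddSubgroup.closure {z : R | ∃ y ∈ 𝒜 g⁻¹, ∃ n ∈ M, y * n = z}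
  have hI1 : I ≤ 𝒜 1 := by
    rw [AddSubgroup.closure_le]
    rintro z ⟨y, hy, n, hn, rfl⟩
    have := h.mul_mem g⁻¹ g y n hy (hM hn)
    rwa [inv_mul_cancel] at this
  have hIb : IsSubBimodule 𝒜 I := by
    intro a ha z hz
    induction hz using AddSubgroup.closure_induction with
    | mem z hz =>
      obtain ⟨y, hy, n, hn, rfl⟩ := hz
      constructor
      · apply AddSubgroup.subset_closure
        refine ⟨a * y, ?_, n, hn, by rw [mul_assoc]⟩
        have := h.mul_mem 1 g⁻¹ a y ha hy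
        rwa [one_mul] at this
      · apply AddSubgroup.subset_closure
        exact ⟨y, hy, n * a, (hMb a ha n hn).2, by rw [mul_assoc]⟩
    | zero =>
      rw [mul_zero, zero_mul]
      exact ⟨I.zero_mem, I.zero_mem⟩
    | add x y _ _ hx hy =>
      rw [mul_add, add_mul]
      exact ⟨I.add_mem hx.1 hy.1, I.add_mem hx.2 hy.2⟩
    | neg x _ hx =>
      rw [mul_neg, neg_mul]
      exact ⟨I.neg_mem hx.1, I.neg_mem hx.2⟩
  rcases hsim I hI1 hIb with hI | hI
  · exfalso
    apply hm0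
    apply eq_zero_of_left h hs g
    intro y hy
    have : y * m ∈ I := AddSubgroup.subset_closure ⟨y, hy, m, hm, rfl⟩
    rw [hI] at this
    simpa using this
  · intro x hx
    have key : ∀ z ∈ I, x * z ∈ M := by
      intro z hz
      induction hz using AddSubgroup.closure_induction with
      | mem z hz =>
        obtain ⟨y, hy, n, hn, rfl⟩ := hz
        rw [← mul_assoc]
        have hxy : x * y ∈ 𝒜 1 := by
          have := h.mul_mem g g⁻¹ x y hx hy
          rwa [mul_inv_cancel] at this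
        exact (hMb _ hxy n hn).1
      | zero =>
        rw [mul_zero]
        exact M.zero_mem
      | add x y _ _ hx hy =>
        rw [mul_add]
        exact M.add_mem hx hy
      | neg x _ hx =>
        rw [mul_neg]
        exact M.neg_mem hx
    have h1 : (1 : R) ∈ I := by
      rw [hI]
      exact h.one_mem
    have := key 1 h1
    rwa [mul_one] at this

/-- A bimodule correspondence between two components is given by left multiplication. -/
theorem exists_mult (h : IsGrading 𝒜) (hs : IsStrong 𝒜)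
    (hsim : ∀ I : AddSubgroup R, I ≤ 𝒜 1 → IsSubBimodule 𝒜 I → I = ⊥ ∨ I = 𝒜 1)
    (g k : G) (N : AddSubgroup (R × R))
    (hN1 : ∀ p ∈ N, p.1 ∈ 𝒜 g ∧ p.2 ∈ 𝒜 k)
    (hN2 : ∀ a ∈ 𝒜 1, ∀ p ∈ N, (a * p.1, a * p.2) ∈ N ∧ (p.1 * a, p.2 * a) ∈ N)
    (hN3 : ∀ p ∈ N, p.1 = 0 → p.2 = 0)
    (p0 : R × R) (hp0 : p0 ∈ N) (hp0' : p0.1 ≠ 0) :
    ∃ c ∈ 𝒜 (k * g⁻¹), (∀ p ∈ N, c * p.1 = p.2) ∧ (∀ x ∈ 𝒜 g, ∃ y, (x, y) ∈ N) := by
  have hsurj : ∀ x ∈ 𝒜 g, ∃ y, (x, y) ∈ N := by
    let M : AddSubgroup R := N.map (AddMonoidHom.fst R R)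
    have hM : M ≤ 𝒜 g := by
      rintro x hx
      obtain ⟨p, hp, rfl⟩ := AddSubgroup.mem_map.1 hx
      exact (hN1 p hp).1
    have hMb : IsSubBimodule 𝒜 M := by
      rintro a ha x hx
      obtain ⟨p, hp, rfl⟩ := AddSubgroup.mem_map.1 hx
      exact ⟨AddSubgroup.mem_map.2 ⟨_, (hN2 a ha p hp).1, rfl⟩,
        AddSubgroup.mem_map.2 ⟨_, (hN2 a ha p hp).2, rfl⟩⟩
    have hMg := simple_comp h hs hsim g M hM hMb p0.1
      (AddSubgroup.mem_map.2 ⟨p0, hp0, rfl⟩) hp0'
    intro x hx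
    obtain ⟨p, hp, hpx⟩ := AddSubgroup.mem_map.1 (hMg hx)
    refine ⟨p.2, ?_⟩
    have hpx' : p.1 = x := hpx
    rw [← hpx']
    exact hp
  obtain ⟨l, hl, e⟩ := one_list h hs g
  choose! F hF using hsurj
  refine ⟨(l.map (fun p => F p.1 * p.2)).sum, ?_, ?_, fun x hx => ⟨F x, hF x hx⟩⟩
  · apply list_sum_mem
    intro p hp
    exact h.mul_mem _ _ _ _ (hN1 _ (hF p.1 (hl p hp).1)).2 (hl p hp).2
  · rintro ⟨x, y⟩ hxy
    show (l.map (fun p => F p.1 * p.2)).sum * x = y
    have hx := (hN1 _ hxy).1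
    -- the element `Σ (b, F b) * (a * x)` of `N`
    have hmem : ((l.map (fun p => p.1 * (p.2 * x))).sum, (l.map (fun p => F p.1 * (p.2 * x))).sum)
        ∈ N := by
      clear e
      induction l with
      | nil => exact N.zero_mem
      | cons p l ih =>
        simp only [List.map_cons, List.sum_cons]
        have hp : p.1 ∈ 𝒜 g ∧ p.2 ∈ 𝒜 g⁻¹ := hl p (by simp)
        have h1 : p.2 * x ∈ 𝒜 1 := by
          have := h.mul_mem _ _ _ _ hp.2 hx
          rwa [inv_mul_cancel] at this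
        exact N.add_mem (hN2 _ h1 _ (hF p.1 hp.1)).2 (ih fun q hq => hl q (by simp [hq]))
    have e1 : (l.map (fun p => F p.1 * (p.2 * x))).sum = (l.map (fun p => F p.1 * p.2)).sum * x := by
      clear hmem e hl
      induction l with
      | nil => simp
      | cons p l ih => simp only [List.map_cons, List.sum_cons, add_mul, ih, mul_assoc]
    have e2 : (l.map (fun p => p.1 * (p.2 * x))).sum = x := by
      rw [← list_mul_right, e, one_mul]
    rw [e1, e2] at hmem
    have h0 := N.sub_mem hmem hxy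
    have h1 := hN3 _ h0 (by simp)
    exact sub_eq_zero.1 h1

theorem correspondence_unit (h : IsGrading 𝒜) (hs : IsStrong 𝒜)
    (hsim : ∀ I : AddSubgroup R, I ≤ 𝒜 1 → IsSubBimodule 𝒜 I → I = ⊥ ∨ I = 𝒜 1)
    (hnu : ∀ g : G, g ≠ 1 → ∀ c ∈ 𝒜 g, ∀ d ∈ 𝒜 g⁻¹, c * d = 1 → d * c = 1 → False)
    (g k : G) (hgk : g ≠ k) (N : AddSubgroup (R × R))
    (hN1 : ∀ p ∈ N, p.1 ∈ 𝒜 g ∧ p.2 ∈ 𝒜 k)
    (hN2 : ∀ a ∈ 𝒜 1, ∀ p ∈ N, (a * p.1, a * p.2) ∈ N ∧ (p.1 * a, p.2 * a) ∈ N)
    (hN3 : ∀ p ∈ N, p.1 = 0 → p.2 = 0) (hN4 : ∀ p ∈ N, p.2 = 0 → p.1 = 0)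
    (p0 : R × R) (hp0 : p0 ∈ N) : p0.1 = 0 := by
  by_contra hne
  obtain ⟨c, hc, hc1, hc2⟩ := exists_mult h hs hsim g k N hN1 hN2 hN3 p0 hp0 hne
  let N' : AddSubgroup (R × R) := N.map (AddEquiv.prodComm (M := R) (N := R)).toAddMonoidHom
  have hN' : ∀ p : R × R, p ∈ N' ↔ (p.2, p.1) ∈ N := by
    intro p
    constructor
    · intro hp
      obtain ⟨q, hq, rfl⟩ := AddSubgroup.mem_map.1 hp
      exact hq
    · intro hp
      exact AddSubgroup.mem_map.2 ⟨_, hp, rfl⟩
  obtain ⟨d, hd, hd1, hd2⟩ := exists_mult h hs hsim k g N'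
    (fun p hp => by
      have := hN1 _ ((hN' p).1 hp)
      exact ⟨this.2, this.1⟩)
    (fun a ha p hp => by
      have := hN2 a ha _ ((hN' p).1 hp)
      exact ⟨(hN' _).2 this.1, (hN' _).2 this.2⟩)
    (fun p hp hp1 => hN4 _ ((hN' p).1 hp) hp1)
    (p0.2, p0.1) ((hN' _).2 hp0) (fun h0 => hne (hN4 p0 hp0 h0))
  have hd1' : ∀ p ∈ N, d * p.2 = p.1 := fun p hp => hd1 (p.2, p.1) ((hN' _).2 hp)
  have hdc : ∀ x ∈ 𝒜 g, d * c * x = x := by
    intro x hx
    obtain ⟨y, hy⟩ := hc2 x hx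
    rw [mul_assoc, hc1 _ hy, hd1' _ hy]
  have hcd : ∀ y ∈ 𝒜 k, c * d * y = y := by
    intro y hy
    obtain ⟨x, hx⟩ := hd2 y hy
    have hx' := (hN' _).1 hx
    rw [mul_assoc, hd1' _ hx', hc1 _ hx']
  have e1 : d * c = 1 := by
    obtain ⟨l, hl, e⟩ := one_list h hs g
    have h1 := list_mul_left (d * c) l
    rw [e, mul_one] at h1
    rw [h1, ← e]
    congr 1
    apply List.map_congr_left
    intro p hp
    rw [hdc p.1 (hl p hp).1]
  have e2 : c * d = 1 := by
    obtain ⟨l, hl, e⟩ := one_list h hs k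
    have h1 := list_mul_left (c * d) l
    rw [e, mul_one] at h1
    rw [h1, ← e]
    congr 1
    apply List.map_congr_left
    intro p hp
    rw [hcd p.1 (hl p hp).1]
  refine hnu (k * g⁻¹) ?_ c hc d ?_ e2 e1
  · intro h1
    exact hgk (mul_inv_eq_one.1 h1).symm
  · rwa [mul_inv_rev, inv_inv]

/-- If `m` lies in a sub-bimodule `M` then `M` contains every component `𝒜 g` in which `m` has
a nonzero component. -/
theorem comp_le (h : IsGrading 𝒜) (hs : IsStrong 𝒜)
    (hsim : ∀ I : AddSubgroup R, I ≤ 𝒜 1 → IsSubBimodule 𝒜 I → I = ⊥ ∨ I = 𝒜 1)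
    (hnu : ∀ g : G, g ≠ 1 → ∀ c ∈ 𝒜 g, ∀ d ∈ 𝒜 g⁻¹, c * d = 1 → d * c = 1 → False)
    {π : G → R →+ R}
    (h1 : ∀ g x, π g x ∈ 𝒜 g) (h2 : ∀ g x, x ∈ 𝒜 g → π g x = x)
    (h3 : ∀ g k x, g ≠ k → x ∈ 𝒜 k → π g x = 0)
    (h4 : ∀ x, ∃ s : Finset G, (∀ g, g ∉ s → π g x = 0) ∧ x = ∑ g ∈ s, π g x)
    (M : AddSubgroup R) (hM : IsSubBimodule 𝒜 M) (n : ℕ) :
    ∀ (s : Finset G), s.card = n → ∀ m ∈ M, (∀ g, g ∉ s → π g m = 0) →
      ∀ g, π g m ≠ 0 → 𝒜 g ≤ M := by
  classical
  induction n with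
  | zero =>
    intro s hsc m hm hms g hg
    rw [Finset.card_eq_zero] at hsc
    subst hsc
    exact absurd (hms g (by simp)) hg
  | succ n ih =>
    intro s hsc m hm hms g hg
    have hgs : g ∈ s := by
      by_contra hgs
      exact hg (hms g hgs)
    by_cases hall : ∀ k, k ≠ g → π k m = 0
    · -- `m` is homogeneous
      have hmg : m ∈ 𝒜 g := by
        obtain ⟨t, ht, e⟩ := h4 m
        rw [e]
        refine AddSubgroup.sum_mem _ fun k _ => ?_
        by_cases hk : k = g
        · rw [hk]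
          exact h1 g m
        · rw [hall k hk]
          exact AddSubgroup.zero_mem _
      have hm0 : m ≠ 0 := by
        rintro rfl
        exact hg (map_zero _)
      have hle := simple_comp h hs hsim g (M ⊓ 𝒜 g) inf_le_right
        (by
          intro a ha x hx
          have hx1 := hM a ha x hx.1
          have e1 := h.mul_mem 1 g a x ha hx.2
          have e2 := h.mul_mem g 1 x a hx.2 ha
          rw [one_mul] at e1
          rw [mul_one] at e2
          exact ⟨⟨hx1.1, e1⟩, ⟨hx1.2, e2⟩⟩) m ⟨hm, hmg⟩ hm0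
      exact hle.trans inf_le_left
    · push Not at hall
      obtain ⟨k, hkg, hk⟩ := hall
      have hks : k ∈ s := by
        by_contra hks
        exact hk (hms k hks)
      by_contra hcon
      -- the elements of `M` supported in `s`
      have hred : ∀ (i : G), i ∈ s → ∀ x ∈ M, (∀ j, j ∉ s → π j x = 0) → π i x = 0 →
          ∀ j, π j x ≠ 0 → 𝒜 j ≤ M := by
        intro i hi x hx hxs hxi j hj
        refine ih (s.erase i) ?_ x hx ?_ j hj
        · rw [Finset.card_erase_of_mem hi, hsc]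
          rfl
        · intro l hl
          by_cases hli : l = i
          · rw [hli, hxi]
          · apply hxs
            intro hls
            exact hl (Finset.mem_erase.2 ⟨hli, hls⟩)
      let N' : AddSubgroup R :=
        { carrier := {x | x ∈ M ∧ ∀ j, j ∉ s → π j x = 0}
          add_mem' := by
            rintro x y ⟨hx, hx'⟩ ⟨hy, hy'⟩
            refine ⟨M.add_mem hx hy, fun j hj => ?_⟩
            rw [map_add, hx' j hj, hy' j hj, add_zero]
          zero_mem' := ⟨M.zero_mem, fun j _ => map_zero _⟩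
          neg_mem' := by
            rintro x ⟨hx, hx'⟩
            refine ⟨M.neg_mem hx, fun j hj => ?_⟩
            rw [map_neg, hx' j hj, neg_zero] }
      have hN' : ∀ x, x ∈ N' ↔ x ∈ M ∧ ∀ j, j ∉ s → π j x = 0 := fun x => Iff.rfl
      let N : AddSubgroup (R × R) := N'.map ((π g).prod (π k))
      have hN : ∀ p, p ∈ N ↔ ∃ x ∈ N', (π g x, π k x) = p := fun p => AddSubgroup.mem_map
      have e1 : ∀ x ∈ N', π k x = 0 → π g x = 0 := by
        intro x hx hx0
        by_contra hgx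
        exact hcon (hred k hks x hx.1 hx.2 hx0 g hgx)
      have e2 : ∀ x ∈ N', π g x = 0 → π k x = 0 := by
        intro x hx hx0
        by_contra hkx
        have hkM : 𝒜 k ≤ M := hred g hgs x hx.1 hx.2 hx0 k hkx
        apply hcon
        refine hred k hks (m - π k m) (M.sub_mem hm (hkM (h1 k m))) ?_ ?_ g ?_
        · intro j hj
          have hjk : j ≠ k := by
            rintro rfl
            exact hj hks
          rw [map_sub, hms j hj, h3 j k _ hjk (h1 k m), sub_zero]
        · rw [map_sub, h2 k _ (h1 k m), sub_self]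
        · rw [map_sub, h3 g k _ (Ne.symm hkg) (h1 k m), sub_zero]
          exact hg
      have hfin := correspondence_unit h hs hsim hnu g k (Ne.symm hkg) N
        (by
          rintro p hp
          obtain ⟨x, _, rfl⟩ := (hN p).1 hp
          exact ⟨h1 g x, h1 k x⟩)
        (by
          rintro a ha p hp
          obtain ⟨x, hx, rfl⟩ := (hN p).1 hp
          constructor
          · refine (hN _).2 ⟨a * x, ⟨(hM a ha x hx.1).1, ?_⟩, ?_⟩
            · intro j hj
              rw [proj_mul_left h h1 h2 h3 h4 j a x ha, hx.2 j hj, mul_zero]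
            · rw [proj_mul_left h h1 h2 h3 h4 g a x ha, proj_mul_left h h1 h2 h3 h4 k a x ha]
          · refine (hN _).2 ⟨x * a, ⟨(hM a ha x hx.1).2, ?_⟩, ?_⟩
            · intro j hj
              rw [proj_mul_right h h1 h2 h3 h4 j a x ha, hx.2 j hj, zero_mul]
            · rw [proj_mul_right h h1 h2 h3 h4 g a x ha, proj_mul_right h h1 h2 h3 h4 k a x ha])
        (by
          rintro p hp hp1
          obtain ⟨x, hx, rfl⟩ := (hN p).1 hp
          exact e2 x hx hp1)
        (by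
          rintro p hp hp1
          obtain ⟨x, hx, rfl⟩ := (hN p).1 hp
          exact e1 x hx hp1)
        (π g m, π k m) ((hN _).2 ⟨m, ⟨hm, hms⟩, rfl⟩)
      exact hg hfin

omit [Group G] in
theorem proj_part {π : G → R →+ R}
    (h3 : ∀ g k x, g ≠ k → x ∈ 𝒜 k → π g x = 0) (H : Set G) (g : G) (hg : g ∉ H) (x : R)
    (hx : x ∈ part 𝒜 H) : π g x = 0 := by
  have hle : part 𝒜 H ≤ (π g).ker := by
    refine iSup₂_le fun k hk y hy => ?_
    rw [AddMonoidHom.mem_ker]
    refine h3 g k y ?_ hy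
    rintro rfl
    exact hg hk
  exact AddMonoidHom.mem_ker.1 (hle hx)

theorem part_isSubBimodule (h : IsGrading 𝒜) (H : Set G) : IsSubBimodule 𝒜 (part 𝒜 H) := by
  intro a ha
  have hl : part 𝒜 H ≤ (part 𝒜 H).comap (AddMonoidHom.mulLeft a) := by
    refine iSup₂_le fun k hk y hy => ?_
    have e1 := h.mul_mem 1 k a y ha hy
    rw [one_mul] at e1
    exact (le_iSup₂_of_le (f := fun k (_ : k ∈ H) => 𝒜 k) k hk le_rfl) e1
  have hr : part 𝒜 H ≤ (part 𝒜 H).comap (AddMonoidHom.mulRight a) := by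
    refine iSup₂_le fun k hk y hy => ?_
    have e1 := h.mul_mem k 1 y a hy ha
    rw [mul_one] at e1
    exact (le_iSup₂_of_le (f := fun k (_ : k ∈ H) => 𝒜 k) k hk le_rfl) e1
  intro m hm
  exact ⟨hl hm, hr hm⟩

omit [Group G] in
theorem comp_le_part (H : Set G) (g : G) (hg : g ∈ H) : 𝒜 g ≤ part 𝒜 H :=
  le_iSup₂_of_le (f := fun k (_ : k ∈ H) => 𝒜 k) g hg le_rfl

theorem exists_ne_zero (h : IsGrading 𝒜) (hs : IsStrong 𝒜) (h10 : (1 : R) ≠ 0) (g : G) :
    ∃ x ∈ 𝒜 g, x ≠ 0 := by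
  by_contra hcon
  push Not at hcon
  obtain ⟨l, hl, e⟩ := one_list h hs g
  have h2 : (l.map (fun p => p.1 * p.2)).sum ∈ (⊥ : AddSubgroup R) := by
    apply list_sum_mem
    intro p hp
    rw [hcon p.1 (hl p hp).1, zero_mul]
    exact AddSubgroup.zero_mem _
  rw [e] at h2
  exact h10 (by simpa using h2)

theorem iso_subset (h : IsGrading 𝒜) (hs : IsStrong 𝒜) (h10 : (1 : R) ≠ 0)
    (hsim : ∀ I : AddSubgroup R, I ≤ 𝒜 1 → IsSubBimodule 𝒜 I → I = ⊥ ∨ I = 𝒜 1)
    (hnu : ∀ g : G, g ≠ 1 → ∀ c ∈ 𝒜 g, ∀ d ∈ 𝒜 g⁻¹, c * d = 1 → d * c = 1 → False)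
    (S T : Set G) (f : part 𝒜 S ≃+ part 𝒜 T)
    (hf : ∀ a ∈ 𝒜 1, ∀ x y : part 𝒜 S,
      ((y : R) = a * x → ((f y : part 𝒜 T) : R) = a * (f x : part 𝒜 T)) ∧
      ((y : R) = x * a → ((f y : part 𝒜 T) : R) = (f x : part 𝒜 T) * a)) : S ⊆ T := by
  obtain ⟨π, h1, h2, h3, h4⟩ := exists_proj h
  intro g hgS
  by_contra hgT
  obtain ⟨x0, hx0, hx0'⟩ := exists_ne_zero h hs h10 g
  let x1 : part 𝒜 S := ⟨x0, comp_le_part S g hgS hx0⟩
  have hx1 : x1 ≠ 0 := fun h0 => hx0' (congrArg Subtype.val h0)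
  have hfx1 : f x1 ≠ 0 := fun h0 => hx1 ((AddEquiv.map_eq_zero_iff f).1 h0)
  obtain ⟨k, hk⟩ : ∃ k, π k (f x1 : part 𝒜 T) ≠ 0 := by
    by_contra hcon
    push Not at hcon
    apply hfx1
    apply Subtype.ext
    obtain ⟨s, _, e⟩ := h4 (f x1 : part 𝒜 T)
    rw [e]
    exact Finset.sum_eq_zero fun k _ => hcon k
  have hkT : k ∈ T := by
    by_contra hkT
    exact hk (proj_part h3 T k hkT _ (f x1).2)
  have hgk : g ≠ k := by
    rintro rfl
    exact hgT hkT
  -- the graph of `x ↦ π k (f x)` on `𝒜 g`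
  let N : AddSubgroup (R × R) :=
    { carrier := {p | ∃ x : part 𝒜 S, (x : R) ∈ 𝒜 g ∧ p = ((x : R), π k (f x : part 𝒜 T))}
      add_mem' := by
        rintro _ _ ⟨x, hx, rfl⟩ ⟨y, hy, rfl⟩
        refine ⟨x + y, (𝒜 g).add_mem hx hy, ?_⟩
        rw [map_add, AddSubgroup.coe_add, AddSubgroup.coe_add, map_add]
        rfl
      zero_mem' := by
        refine ⟨0, (𝒜 g).zero_mem, ?_⟩
        rw [map_zero, AddSubgroup.coe_zero, AddSubgroup.coe_zero, map_zero]
        rfl
      neg_mem' := by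
        rintro _ ⟨x, hx, rfl⟩
        refine ⟨-x, (𝒜 g).neg_mem hx, ?_⟩
        rw [map_neg, AddSubgroup.coe_neg, AddSubgroup.coe_neg, map_neg]
        rfl }
  have hN : ∀ p, p ∈ N ↔
      ∃ x : part 𝒜 S, (x : R) ∈ 𝒜 g ∧ p = ((x : R), π k (f x : part 𝒜 T)) := fun p => Iff.rfl
  have hNb : ∀ a ∈ 𝒜 1, ∀ p ∈ N, (a * p.1, a * p.2) ∈ N ∧ (p.1 * a, p.2 * a) ∈ N := by
    rintro a ha p hp
    obtain ⟨x, hx, rfl⟩ := (hN p).1 hp
    constructor
    · let y : part 𝒜 S := ⟨a * x, (part_isSubBimodule h S a ha x x.2).1⟩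
      refine (hN _).2 ⟨y, ?_, ?_⟩
      · have := h.mul_mem 1 g a x ha hx
        rwa [one_mul] at this
      · rw [(hf a ha x y).1 rfl, proj_mul_left h h1 h2 h3 h4 k a _ ha]
    · let y : part 𝒜 S := ⟨x * a, (part_isSubBimodule h S a ha x x.2).2⟩
      refine (hN _).2 ⟨y, ?_, ?_⟩
      · have := h.mul_mem g 1 x a hx ha
        rwa [mul_one] at this
      · rw [(hf a ha x y).2 rfl, proj_mul_right h h1 h2 h3 h4 k a _ ha]
  have hN3 : ∀ p ∈ N, p.1 = 0 → p.2 = 0 := by
    rintro p hp hp1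
    obtain ⟨x, hx, rfl⟩ := (hN p).1 hp
    have hx0 : x = 0 := Subtype.ext hp1
    show π k (f x : part 𝒜 T) = 0
    rw [hx0, map_zero, AddSubgroup.coe_zero, map_zero]
  have hN4 : ∀ p ∈ N, p.2 = 0 → p.1 = 0 := by
    rintro p hp hp2
    by_contra hp1
    -- the kernel is a nonzero sub-bimodule of `𝒜 g`
    let K : AddSubgroup R :=
      { carrier := {x | (x, (0 : R)) ∈ N}
        add_mem' := by
          intro x y hx hy
          have := N.add_mem hx hy
          rwa [Prod.mk_add_mk, add_zero] at this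
        zero_mem' := N.zero_mem
        neg_mem' := by
          intro x hx
          have := N.neg_mem hx
          rwa [Prod.neg_mk, neg_zero] at this }
    have hK : ∀ x, x ∈ K ↔ (x, (0 : R)) ∈ N := fun x => Iff.rfl
    have hKg : K ≤ 𝒜 g := by
      intro x hx
      obtain ⟨y, hy, e⟩ := (hN _).1 ((hK x).1 hx)
      have : x = y := congrArg Prod.fst e
      rw [this]
      exact hy
    have hKb : IsSubBimodule 𝒜 K := by
      intro a ha x hx
      have := hNb a ha _ ((hK x).1 hx)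
      rw [mul_zero, zero_mul] at this
      exact ⟨(hK _).2 this.1, (hK _).2 this.2⟩
    have hpK : p.1 ∈ K := by
      rw [hK, ← hp2]
      exact hp
    have hle := simple_comp h hs hsim g K hKg hKb p.1 hpK hp1
    have hx0K := (hK _).1 (hle hx0)
    obtain ⟨y, hy, e⟩ := (hN _).1 hx0K
    have hy1 : y = x1 := Subtype.ext (congrArg Prod.fst e).symm
    have hy2 : (0 : R) = π k (f y : part 𝒜 T) := congrArg Prod.snd e
    rw [hy1] at hy2
    exact hk hy2.symm
  have hfin := correspondence_unit h hs hsim hnu g k hgk N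
    (by
      rintro p hp
      obtain ⟨x, hx, rfl⟩ := (hN p).1 hp
      exact ⟨hx, h1 k _⟩) hNb hN3 hN4 (x0, π k (f x1 : part 𝒜 T)) ((hN _).2 ⟨x1, hx0, rfl⟩)
  exact hx0' hfin

/-- A strongly graded ring whose identity component is simple and none of whose other components
contains a unit is controlled. -/
theorem isControlled (h : IsGrading 𝒜) (hs : IsStrong 𝒜) (h10 : (1 : R) ≠ 0)
    (hsim : ∀ I : AddSubgroup R, I ≤ 𝒜 1 → IsSubBimodule 𝒜 I → I = ⊥ ∨ I = 𝒜 1)
    (hnu : ∀ g : G, g ≠ 1 → ∀ c ∈ 𝒜 g, ∀ d ∈ 𝒜 g⁻¹, c * d = 1 → d * c = 1 → False) :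
    IsControlled 𝒜 := by
  obtain ⟨π, h1, h2, h3, h4⟩ := exists_proj h
  refine ⟨⟨fun H _ => part_isSubBimodule h H, ?_, ?_⟩, ?_⟩
  · intro H _ H' _ hHH
    have key : ∀ A B : Set G, part 𝒜 A = part 𝒜 B → A ⊆ B := by
      intro A B hAB g hg
      by_contra hgB
      obtain ⟨x, hx, hx0⟩ := exists_ne_zero h hs h10 g
      have hxB : x ∈ part 𝒜 B := by
        rw [← hAB]
        exact comp_le_part A g hg hx
      have := proj_part h3 B g hgB x hxB
      rw [h2 g x hx] at this
      exact hx0 this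
    exact Set.Subset.antisymm (key H H' hHH) (key H' H hHH.symm)
  · intro M hM
    refine ⟨{g | 𝒜 g ≤ M}, Set.mem_univ _, ?_⟩
    apply le_antisymm
    · exact iSup₂_le fun g hg => hg
    · intro m hm
      obtain ⟨s, hs1, e⟩ := h4 m
      rw [e]
      refine AddSubgroup.sum_mem _ fun g _ => ?_
      by_cases hg : π g m = 0
      · rw [hg]
        exact AddSubgroup.zero_mem _
      · exact comp_le_part {g | 𝒜 g ≤ M} g
          (comp_le h hs hsim hnu h1 h2 h3 h4 M hM s.card s rfl m hm hs1 g hg) (h1 g m)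
  · rintro S T ⟨f, hf⟩
    apply Set.Subset.antisymm
    · exact iso_subset h hs h10 hsim hnu S T f hf
    · refine iso_subset h hs h10 hsim hnu T S f.symm ?_
      intro a ha x y
      constructor
      · intro hxy
        let y' : part 𝒜 S := ⟨a * (f.symm x : part 𝒜 S),
          (part_isSubBimodule h S a ha _ (f.symm x).2).1⟩
        have h5 := (hf a ha (f.symm x) y').1 rfl
        rw [AddEquiv.apply_symm_apply, ← hxy] at h5
        have h6 : f y' = y := Subtype.ext h5
        rw [← h6, AddEquiv.symm_apply_apply]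
      · intro hxy
        let y' : part 𝒜 S := ⟨(f.symm x : part 𝒜 S) * a,
          (part_isSubBimodule h S a ha _ (f.symm x).2).2⟩
        have h5 := (hf a ha (f.symm x) y').2 rfl
        rw [AddEquiv.apply_symm_apply, ← hxy] at h5
        have h6 : f y' = y := Subtype.ext h5
        rw [← h6, AddEquiv.symm_apply_apply]

/-- A grading is strong as soon as `1` is a finite sum of products from `𝒜 g` and `𝒜 g⁻¹`. -/
theorem isStrong_of_one_mem (hG : IsGrading 𝒜)
    (h1 : ∀ g, (1 : R) ∈ AddSubgroup.closure {z | ∃ x ∈ 𝒜 g, ∃ y ∈ 𝒜 g⁻¹, x * y = z}) :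
    IsStrong 𝒜 := by
  intro g h
  apply le_antisymm
  · rw [AddSubgroup.closure_le]
    rintro z ⟨x, hx, y, hy, rfl⟩
    exact hG.mul_mem g h x y hx hy
  · intro z hz
    have key : ∀ e ∈ AddSubgroup.closure {z | ∃ x ∈ 𝒜 g, ∃ y ∈ 𝒜 g⁻¹, x * y = z},
        e * z ∈ AddSubgroup.closure {z : R | ∃ x ∈ 𝒜 g, ∃ y ∈ 𝒜 h, x * y = z} := by
      intro e he
      induction he using AddSubgroup.closure_induction with
      | mem e he =>
        obtain ⟨x, hx, y, hy, rfl⟩ := he
        apply AddSubgroup.subset_closure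
        refine ⟨x, hx, y * z, ?_, by rw [mul_assoc]⟩
        have := hG.mul_mem _ _ _ _ hy hz
        rwa [inv_mul_cancel_left] at this
      | zero => rw [zero_mul]; exact AddSubgroup.zero_mem _
      | add x y _ _ hx hy => rw [add_mul]; exact AddSubgroup.add_mem _ hx hy
      | neg x _ hx => rw [neg_mul]; exact AddSubgroup.neg_mem _ hx
    have := key 1 (h1 g)
    rwa [one_mul] at this

end General

section Concrete

open Polynomial

variable (F : Type) [Field F]

/-- `M` intertwines multiplication by `X ^ b` with multiplication by `X ^ a`. -/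
def Inter {F : Type} [Field F] (a b : ℕ) (M : Module.End F F[X]) : Prop :=
  ∀ f : F[X], M (X ^ b * f) = X ^ a * M f

variable {F}

theorem Inter.scale {a b : ℕ} {M : Module.End F F[X]} (h : Inter a b M) (k : ℕ) :
    Inter (a * k) (b * k) M := by
  induction k with
  | zero => intro f; simp
  | succ k ih =>
    intro f
    rw [Nat.mul_succ, Nat.mul_succ, pow_add, pow_add, mul_assoc, ih, h, mul_assoc]

theorem Inter.scale_pow {a b : ℕ} {M : Module.End F F[X]} (h : Inter (2 ^ a) (2 ^ b) M) (c : ℕ) :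
    Inter (2 ^ (a + c)) (2 ^ (b + c)) M := by
  rw [pow_add, pow_add]
  exact h.scale _

theorem Inter.mul {a b c : ℕ} {M N : Module.End F F[X]} (hM : Inter a b M) (hN : Inter b c N) :
    Inter a c (M * N) := by
  intro f
  rw [Module.End.mul_apply, hN, hM, Module.End.mul_apply]

variable (F)

/-- The operators of degree `n`. -/
def B (n : ℤ) : AddSubgroup (Module.End F F[X]) where
  carrier := {M | ∃ a b : ℕ, (a : ℤ) = b + n ∧ Inter (2 ^ a) (2 ^ b) M}
  add_mem' := by
    rintro M N ⟨a, b, hab, hM⟩ ⟨c, d, hcd, hN⟩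
    refine ⟨a + c, b + c, by push_cast; omega, ?_⟩
    have h1 := hM.scale_pow c
    have h2 := hN.scale_pow a
    have e1 : c + a = a + c := by omega
    have e2 : d + a = b + c := by omega
    rw [e1, e2] at h2
    intro f
    rw [LinearMap.add_apply, h1, h2, LinearMap.add_apply, mul_add]
  zero_mem' := by
    refine ⟨n.toNat, (-n).toNat, by omega, ?_⟩
    intro f
    simp
  neg_mem' := by
    rintro M ⟨a, b, hab, hM⟩
    refine ⟨a, b, hab, ?_⟩
    intro f
    rw [LinearMap.neg_apply, hM, LinearMap.neg_apply, mul_neg]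

theorem mem_B {n : ℤ} {M : Module.End F F[X]} :
    M ∈ B F n ↔ ∃ a b : ℕ, (a : ℤ) = b + n ∧ Inter (2 ^ a) (2 ^ b) M := Iff.rfl

instance : SetLike.GradedMonoid (B F) where
  one_mem := ⟨0, 0, by simp, fun f => by simp⟩
  mul_mem := by
    rintro m n M N ⟨a, b, hab, hM⟩ ⟨c, d, hcd, hN⟩
    refine ⟨a + c, d + b, by push_cast; omega, ?_⟩
    have h1 := hM.scale_pow c
    have h2 := hN.scale_pow b
    have e1 : c + b = b + c := by omega
    rw [e1] at h2
    exact h1.mul h2

/-- The matrix unit type operators. -/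
noncomputable def E (a b i j : ℕ) : Module.End F F[X] :=
  Polynomial.lsum (fun n => if n % b = j then Polynomial.monomial (a * (n / b) + i) else 0)

theorem E_monomial (a b i j n : ℕ) (r : F) :
    E F a b i j (monomial n r) = if n % b = j then monomial (a * (n / b) + i) r else 0 := by
  rw [E, Polynomial.lsum_apply, Polynomial.sum_monomial_index]
  · split_ifs <;> rfl
  · split_ifs <;> simp

theorem E_inter (a b i j : ℕ) (hb : 0 < b) : Inter a b (E F a b i j) := by
  intro f
  induction f using Polynomial.induction_on' with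
  | add p q hp hq => rw [mul_add, map_add, hp, hq, map_add, mul_add]
  | monomial n r =>
    rw [X_pow_mul_monomial, E_monomial, E_monomial, Nat.add_mod_right, Nat.add_div_right _ hb]
    split_ifs
    · rw [X_pow_mul_monomial, show a * (n / b).succ + i = a * (n / b) + i + a by
        rw [Nat.mul_succ]; ring]
    · rw [mul_zero]

theorem E_mul (a b c i j k : ℕ) (hj : j < b) : E F a b i j * E F b c j k = E F a c i k := by
  apply Polynomial.lhom_ext'
  intro n
  refine LinearMap.ext fun r => ?_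
  show E F a b i j (E F b c j k (monomial n r)) = E F a c i k (monomial n r)
  rw [E_monomial, E_monomial]
  split_ifs with h
  · rw [E_monomial, Nat.mul_add_mod, Nat.mod_eq_of_lt hj, if_pos rfl, Nat.mul_add_div (by omega),
      Nat.div_eq_of_lt hj, add_zero]
  · rw [map_zero]

theorem sum_E (a : ℕ) (ha : 0 < a) : ∑ k ∈ Finset.range a, E F a a k k = 1 := by
  apply Polynomial.lhom_ext'
  intro n
  refine LinearMap.ext fun r => ?_
  show (∑ k ∈ Finset.range a, E F a a k k) (monomial n r) = monomial n r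
  rw [LinearMap.sum_apply, Finset.sum_eq_single (n % a)]
  · rw [E_monomial, if_pos rfl, Nat.div_add_mod]
  · intro k _ hk
    rw [E_monomial, if_neg (Ne.symm hk)]
  · intro h
    exact absurd (Finset.mem_range.2 (Nat.mod_lt _ ha)) h

/-- simplicity of the degree zero part, operator form -/
theorem exists_sum_eq_one (M : Module.End F F[X]) (hM : M ∈ B F 0) (hM0 : M ≠ 0) :
    ∃ (N : ℕ) (c d : ℕ → Module.End F F[X]), (∀ k, c k ∈ B F 0) ∧ (∀ k, d k ∈ B F 0) ∧
      ∑ k ∈ Finset.range N, c k * M * d k = 1 := by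
  obtain ⟨a, b, hab, hI⟩ := hM
  have hab' : a = b := by omega
  subst hab'
  obtain ⟨j, hj⟩ : ∃ j, M (monomial j 1) ≠ 0 := by
    by_contra hcon
    push Not at hcon
    apply hM0
    apply Polynomial.lhom_ext'
    intro n
    ext
    show (M (monomial n 1)).coeff _ = 0
    rw [hcon n, coeff_zero]
  set P := M (monomial j 1) with hP
  obtain ⟨i0, hi0⟩ : ∃ i, P.coeff i ≠ 0 := by
    by_contra hcon
    push Not at hcon
    exact hj (Polynomial.ext fun n => by rw [hcon n, coeff_zero])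
  obtain ⟨m, hm⟩ : ∃ m, a ≤ m ∧ j < 2 ^ m ∧ P.natDegree < 2 ^ m := by
    refine ⟨a + j + P.natDegree, by omega, ?_, ?_⟩
    · exact lt_of_lt_of_le (Nat.lt_two_pow_self) (Nat.pow_le_pow_right (by norm_num) (by omega))
    · exact lt_of_lt_of_le (Nat.lt_two_pow_self) (Nat.pow_le_pow_right (by norm_num) (by omega))
  obtain ⟨ham, hjm, hPm⟩ := hm
  have hIm : Inter (2 ^ m) (2 ^ m) M := by
    have := hI.scale_pow (m - a)
    rwa [show a + (m - a) = m by omega] at this
  have hpos : 0 < 2 ^ m := by positivity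
  have hEB : ∀ i j, E F (2 ^ m) (2 ^ m) i j ∈ B F 0 := fun i j =>
    ⟨m, m, by simp, E_inter F _ _ i j hpos⟩
  have hEP : ∀ k q, E F (2 ^ m) (2 ^ m) k i0 (X ^ (2 ^ m * q) * P) =
      monomial (2 ^ m * q + k) (P.coeff i0) := by
    intro k q
    have h1 := (E_inter F (2 ^ m) (2 ^ m) k i0 hpos).scale q P
    rw [h1]
    have h2 := Polynomial.as_sum_range' P (2 ^ m) hPm
    conv_lhs => rw [h2]
    rw [map_sum, Finset.sum_eq_single i0]
    · rw [E_monomial]
      have hlt : i0 < 2 ^ m := lt_of_le_of_lt (Polynomial.le_natDegree_of_ne_zero hi0) hPm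
      rw [Nat.mod_eq_of_lt hlt, if_pos rfl, Nat.div_eq_of_lt hlt, X_pow_mul_monomial,
        show 2 ^ m * 0 + k + 2 ^ m * q = 2 ^ m * q + k by ring]
    · intro i hi hii
      rw [E_monomial, Nat.mod_eq_of_lt (Finset.mem_range.1 hi), if_neg hii]
    · intro h
      exact absurd (Finset.mem_range.2
        (lt_of_le_of_lt (Polynomial.le_natDegree_of_ne_zero hi0) hPm)) h
  refine ⟨2 ^ m, fun k => (P.coeff i0)⁻¹ • E F (2 ^ m) (2 ^ m) k i0,
    fun k => E F (2 ^ m) (2 ^ m) j k, ?_, fun k => hEB j k, ?_⟩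
  · intro k
    refine ⟨m, m, by simp, ?_⟩
    intro f
    rw [LinearMap.smul_apply, LinearMap.smul_apply, E_inter F _ _ k i0 hpos, mul_smul_comm]
  · rw [← sum_E F (2 ^ m) hpos]
    refine Finset.sum_congr rfl fun k hk => ?_
    apply Polynomial.lhom_ext'
    intro n
    refine LinearMap.ext fun r => ?_
    show (P.coeff i0)⁻¹ • E F (2 ^ m) (2 ^ m) k i0 (M (E F (2 ^ m) (2 ^ m) j k (monomial n r))) =
      E F (2 ^ m) (2 ^ m) k k (monomial n r)
    rw [E_monomial, E_monomial]
    split_ifs with hn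
    · have e1 : (monomial (2 ^ m * (n / 2 ^ m) + j) r : F[X]) =
          r • (X ^ (2 ^ m * (n / 2 ^ m)) * monomial j 1) := by
        rw [X_pow_mul_monomial, smul_monomial, smul_eq_mul, mul_one,
          show j + 2 ^ m * (n / 2 ^ m) = 2 ^ m * (n / 2 ^ m) + j by ring]
      rw [e1, map_smul, hIm.scale, ← hP, map_smul, hEP, smul_monomial, smul_monomial,
        smul_eq_mul, smul_eq_mul]
      congr 1
      field_simp
    · rw [map_zero, map_zero, smul_zero]

/-- An invertible intertwiner has equal exponents. -/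
theorem eq_of_inter_unit (a b : ℕ) (M M' : Module.End F F[X]) (hM : Inter a b M)
    (h1 : M * M' = 1) (h2 : M' * M = 1) : a = b := by
  have h1' : ∀ f, M (M' f) = f := fun f => by
    rw [← Module.End.mul_apply, h1, Module.End.one_apply]
  have h2' : ∀ f, M' (M f) = f := fun f => by
    rw [← Module.End.mul_apply, h2, Module.End.one_apply]
  let e : F[X] ≃ₗ[F] F[X] :=
    { M with
      invFun := M'
      left_inv := h2'
      right_inv := h1' }
  have he : ∀ f, e f = M f := fun f => rfl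
  let p : Submodule F F[X] := (Ideal.span {(X : F[X]) ^ b}).restrictScalars F
  let q : Submodule F F[X] := (Ideal.span {(X : F[X]) ^ a}).restrictScalars F
  have hpq : p.map (e : F[X] →ₗ[F] F[X]) = q := by
    apply le_antisymm
    · rintro _ ⟨f, hf, rfl⟩
      obtain ⟨g, rfl⟩ := Ideal.mem_span_singleton'.1 hf
      refine Ideal.mem_span_singleton'.2 ⟨M g, ?_⟩
      rw [mul_comm g, mul_comm]
      exact (hM g).symm
    · intro f hf
      obtain ⟨g, rfl⟩ := Ideal.mem_span_singleton'.1 hf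
      refine ⟨X ^ b * M' g, Ideal.mem_span_singleton'.2 ⟨M' g, mul_comm _ _⟩, ?_⟩
      show M (X ^ b * M' g) = g * X ^ a
      rw [hM, h1', mul_comm]
  have E1 := (Submodule.Quotient.equiv p q e hpq).finrank_eq
  have E2 : Module.finrank F (F[X] ⧸ p) = b := by
    have h3 := (Submodule.Quotient.restrictScalarsEquiv F
      (Ideal.span {(X : F[X]) ^ b} : Submodule F[X] F[X])).finrank_eq
    have h4 := finrank_quotient_span_eq_natDegree (K := F) (f := (X : F[X]) ^ b)
    rw [natDegree_X_pow] at h4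
    exact h3.trans h4
  have E3 : Module.finrank F (F[X] ⧸ q) = a := by
    have h3 := (Submodule.Quotient.restrictScalarsEquiv F
      (Ideal.span {(X : F[X]) ^ a} : Submodule F[X] F[X])).finrank_eq
    have h4 := finrank_quotient_span_eq_natDegree (K := F) (f := (X : F[X]) ^ a)
    rw [natDegree_X_pow] at h4
    exact h3.trans h4
  rw [← E3, ← E2, E1]

open DirectSum

/-- The graded ring. -/
abbrev RR : Type := ⨁ n : ℤ, B F n

/-- The components. -/
noncomputable def comp (g : Multiplicative ℤ) : AddSubgroup (RR F) :=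
  (DirectSum.of (fun n => B F n) g.toAdd).range

theorem mem_comp {g : Multiplicative ℤ} {x : RR F} :
    x ∈ comp F g ↔ ∃ y : B F g.toAdd, DirectSum.of (fun n => B F n) g.toAdd y = x := Iff.rfl

theorem of_mem_comp (n : ℤ) (y : B F n) :
    DirectSum.of (fun n => B F n) n y ∈ comp F (Multiplicative.ofAdd n) := ⟨y, rfl⟩

/-- The canonical map onto the component. -/
noncomputable def toComp (n : ℤ) : B F n →+ comp F (Multiplicative.ofAdd n) where
  toFun y := ⟨DirectSum.of (fun n => B F n) n y, of_mem_comp F n y⟩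
  map_zero' := Subtype.ext (map_zero _)
  map_add' x y := Subtype.ext (map_add _ x y)

theorem coe_toComp (n : ℤ) (y : B F n) :
    ((toComp F n y : comp F (Multiplicative.ofAdd n)) : RR F) =
      DirectSum.of (fun n => B F n) n y := rfl

theorem isInternal_comp : DirectSum.IsInternal (comp F) := by
  let Φ : RR F →+ ⨁ g : Multiplicative ℤ, comp F g :=
    DirectSum.toAddMonoid (fun n => (DirectSum.of (fun g => comp F g) (Multiplicative.ofAdd n)).comp
      (toComp F n))
  have hΦ : ∀ (n : ℤ) (y : B F n), Φ (DirectSum.of (fun n => B F n) n y) =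
      DirectSum.of (fun g => comp F g) (Multiplicative.ofAdd n) (toComp F n y) := by
    intro n y
    rw [DirectSum.toAddMonoid_of]
    rfl
  have h1 : ∀ x : RR F, DirectSum.coeAddMonoidHom (comp F) (Φ x) = x := by
    intro x
    induction x using DirectSum.induction_on with
    | zero => rw [map_zero, map_zero]
    | of n y =>
      rw [hΦ]
      exact DirectSum.coeAddMonoidHom_of (comp F) _ _
    | add x y hx hy => rw [map_add, map_add, hx, hy]
  have h2 : ∀ x, Φ (DirectSum.coeAddMonoidHom (comp F) x) = x := by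
    intro x
    induction x using DirectSum.induction_on with
    | zero => rw [map_zero, map_zero]
    | of n y =>
      have e1 : DirectSum.coeAddMonoidHom (comp F) (DirectSum.of (fun g => comp F g) n y) = y :=
        DirectSum.coeAddMonoidHom_of (comp F) _ _
      rw [e1]
      obtain ⟨_, z, rfl⟩ := y
      exact hΦ n.toAdd z
    | add x y hx hy => rw [map_add, map_add, hx, hy]
  constructor
  · intro x y hxy
    have := congrArg Φ hxy
    rwa [h2, h2] at this
  · intro x
    exact ⟨Φ x, h1 x⟩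


theorem of_mul_of' (m n : ℤ) (x : B F m) (y : B F n) :
    DirectSum.of (fun n => B F n) m x * DirectSum.of (fun n => B F n) n y =
      DirectSum.of (fun n => B F n) (m + n)
        ⟨(x : Module.End F F[X]) * (y : Module.End F F[X]), SetLike.mul_mem_graded x.2 y.2⟩ := by
  rw [DirectSum.of_mul_of]
  rfl

theorem isInternal_comp' (inst : DecidableEq (Multiplicative ℤ)) :
    @DirectSum.IsInternal (Multiplicative ℤ) (RR F) (AddSubgroup (RR F)) inst _ _ _ (comp F) := by
  rw [Subsingleton.elim inst (instDecidableEqMultiplicative)]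
  exact isInternal_comp F

theorem isGrading_comp : IsGrading (comp F) := by
  refine ⟨isInternal_comp' F _, ⟨(⟨1, SetLike.GradedOne.one_mem⟩ : B F 0), rfl⟩, ?_⟩
  rintro g h _ _ ⟨x, rfl⟩ ⟨y, rfl⟩
  rw [of_mul_of']
  exact ⟨_, rfl⟩

/-- `1` is a finite sum of products of elements of degrees `n` and `-n`. -/
theorem one_mem_closure (g : Multiplicative ℤ) :
    (1 : RR F) ∈ AddSubgroup.closure {z | ∃ x ∈ comp F g, ∃ y ∈ comp F g⁻¹, x * y = z} := by
  let n : ℤ := g.toAdd
  let a : ℕ := n.toNat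
  let b : ℕ := (-n).toNat
  have hab : (a : ℤ) = b + n := by omega
  have hb : 0 < 2 ^ b := by positivity
  have ha : 0 < 2 ^ a := by positivity
  have hx : ∀ k, E F (2 ^ a) (2 ^ b) k 0 ∈ B F n := fun k => ⟨a, b, hab, E_inter F _ _ _ _ hb⟩
  have hy : ∀ k, E F (2 ^ b) (2 ^ a) 0 k ∈ B F (-n) := fun k =>
    ⟨b, a, by omega, E_inter F _ _ _ _ ha⟩
  have key : (1 : RR F) = ∑ k ∈ Finset.range (2 ^ a),
      DirectSum.of (fun n => B F n) n ⟨_, hx k⟩ * DirectSum.of (fun n => B F n) (-n) ⟨_, hy k⟩ := by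
    have e1 : ∀ k, DirectSum.of (fun n => B F n) n ⟨_, hx k⟩ *
        DirectSum.of (fun n => B F n) (-n) ⟨_, hy k⟩ =
        DirectSum.of (fun n => B F n) 0 ⟨E F (2 ^ a) (2 ^ a) k k,
          ⟨a, a, by simp, E_inter F _ _ _ _ ha⟩⟩ := by
      intro k
      rw [of_mul_of']
      apply DirectSum.of_eq_of_gradedMonoid_eq
      refine Sigma.subtype_ext (add_neg_cancel n) ?_
      exact E_mul F _ _ _ _ _ _ hb
    rw [Finset.sum_congr rfl fun k _ => e1 k, ← map_sum]
    have e2 : (1 : RR F) = DirectSum.of (fun n => B F n) 0 ⟨1, SetLike.GradedOne.one_mem⟩ := rfl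
    rw [e2]
    congr 1
    apply Subtype.ext
    rw [AddSubgroup.val_finsetSum]
    exact (sum_E F (2 ^ a) ha).symm
  rw [key]
  refine AddSubgroup.sum_mem _ fun k _ => AddSubgroup.subset_closure ?_
  exact ⟨_, ⟨_, rfl⟩, _, ⟨_, rfl⟩, rfl⟩

theorem isStrong_comp : IsStrong (comp F) :=
  isStrong_of_one_mem (isGrading_comp F) (one_mem_closure F)

theorem simple_one (I : AddSubgroup (RR F)) (hI : I ≤ comp F 1) (hIb : IsSubBimodule (comp F) I) :
    I = ⊥ ∨ I = comp F 1 := by
  by_cases h0 : I = ⊥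
  · exact Or.inl h0
  · right
    obtain ⟨z, hz, hz0⟩ : ∃ z ∈ I, z ≠ 0 := by
      by_contra hcon
      push Not at hcon
      exact h0 ((AddSubgroup.eq_bot_iff_forall I).2 hcon)
    obtain ⟨⟨M, hM'⟩, hMz⟩ := hI hz
    have hM : M ∈ B F 0 := hM'
    have hMz' : DirectSum.of (fun n => B F n) 0 ⟨M, hM⟩ = z := hMz
    have hM0 : M ≠ 0 := by
      rintro rfl
      apply hz0
      rw [← hMz']
      exact map_zero _
    obtain ⟨N, c, d, hc, hd, e⟩ := exists_sum_eq_one F M hM hM0
    have hmem : ∀ k, DirectSum.of (fun n => B F n) 0 ⟨c k * M * d k,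
        (by
          have := SetLike.mul_mem_graded (SetLike.mul_mem_graded (hc k) hM) (hd k)
          rwa [add_zero, add_zero] at this)⟩ ∈ I := by
      intro k
      have h1 : DirectSum.of (fun n => B F n) 0 ⟨c k, hc k⟩ * z *
          DirectSum.of (fun n => B F n) 0 ⟨d k, hd k⟩ ∈ I :=
        (hIb _ ⟨_, rfl⟩ _ (hIb _ ⟨_, rfl⟩ _ hz).1).2
      rw [← hMz', of_mul_of', of_mul_of'] at h1
      exact h1
    have h1 : (1 : RR F) ∈ I := by
      have e2 : (1 : RR F) = ∑ k ∈ Finset.range N, DirectSum.of (fun n => B F n) 0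
          ⟨c k * M * d k, (by
          have := SetLike.mul_mem_graded (SetLike.mul_mem_graded (hc k) hM) (hd k)
          rwa [add_zero, add_zero] at this)⟩ := by
        rw [← map_sum]
        have e3 : (1 : RR F) = DirectSum.of (fun n => B F n) 0 ⟨1, SetLike.GradedOne.one_mem⟩ := rfl
        rw [e3]
        congr 1
        apply Subtype.ext
        rw [AddSubgroup.val_finsetSum]
        exact e.symm
      rw [e2]
      exact AddSubgroup.sum_mem _ fun k _ => hmem k
    apply le_antisymm hI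
    intro x hx
    have := (hIb x hx 1 h1).1
    rwa [mul_one] at this

theorem no_unit (g : Multiplicative ℤ) (hg : g ≠ 1) (c : RR F) (hc : c ∈ comp F g) (d : RR F)
    (h1 : c * d = 1) (h2 : d * c = 1) : False := by
  obtain ⟨⟨M, a, b, hab, hI⟩, rfl⟩ := hc
  have e1 := congrArg (DirectSum.coeRingHom (B F)) h1
  have e2 := congrArg (DirectSum.coeRingHom (B F)) h2
  rw [map_mul, map_one, DirectSum.coeRingHom_of] at e1 e2
  have h3 := eq_of_inter_unit F (2 ^ a) (2 ^ b) M (DirectSum.coeRingHom (B F) d) hI e1 e2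
  have h4 : a = b := Nat.pow_right_injective (le_refl 2) h3
  apply hg
  have h5 : g.toAdd = 0 := by omega
  exact Multiplicative.toAdd.injective h5

end Concrete


end Pool.Agent.H73.Controlled
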