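import Mathlib

set_option autoImplicit false

/-! Definitions for problem MP_6c6968_al: the groups `G_{p,q}` and the retreat depth. -/

namespace Pool.Agent.H73.Gpq

/-- The subring `ℤ[p/q, q/p]` of `ℚ`. -/
def A (p q : ℕ+) : Subring ℚ := Subring.closure {(p : ℚ) / (q : ℚ), (q : ℚ) / (p : ℚ)}

theorem zpow_mem (p q : ℕ+) (k : ℤ) : ((p : ℚ) / (q : ℚ)) ^ k ∈ A p q := by
  have h1 : (p : ℚ) / (q : ℚ) ∈ A p q := Subring.subset_closure (by simp)
  have h2 : (q : ℚ) / (p : ℚ) ∈ A p q := Subring.subset_closure (by simp)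
  obtain ⟨n, rfl | rfl⟩ := k.eq_nat_or_neg
  · rw [zpow_natCast]
    exact pow_mem h1 n
  · rw [zpow_neg, zpow_natCast, ← inv_pow, inv_div]
    exact pow_mem h2 n

/-- The set of pairs `(x, k)` with `x ∈ A = ℤ[p/q, q/p]` and `k ∈ ℤ`, underlying the group
`G_{p,q} = A ⋊ ℤ`. -/
@[ext] structure Gpq (p q : ℕ+) where
  /-- the component in `A` -/
  x : ℚ
  /-- the component in `ℤ` -/
  k : ℤ
  mem : x ∈ A p q

variable {p q : ℕ+}

/-- The product `(x, k) (y, m) = (x + (p/q)^k y, k + m)`. -/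
instance : Mul (Gpq p q) :=
  ⟨fun g h => ⟨g.x + ((p : ℚ) / (q : ℚ)) ^ g.k * h.x, g.k + h.k,
    add_mem g.mem (mul_mem (zpow_mem p q g.k) h.mem)⟩⟩

instance : One (Gpq p q) := ⟨⟨0, 0, zero_mem _⟩⟩

instance : Inv (Gpq p q) :=
  ⟨fun g => ⟨-(((p : ℚ) / (q : ℚ)) ^ (-g.k) * g.x), -g.k,
    neg_mem (mul_mem (zpow_mem p q (-g.k)) g.mem)⟩⟩

@[simp] theorem mul_x (g h : Gpq p q) : (g * h).x = g.x + ((p : ℚ) / (q : ℚ)) ^ g.k * h.x := rfl
@[simp] theorem mul_k (g h : Gpq p q) : (g * h).k = g.k + h.k := rfl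
@[simp] theorem one_x : (1 : Gpq p q).x = 0 := rfl
@[simp] theorem one_k : (1 : Gpq p q).k = 0 := rfl
@[simp] theorem inv_x (g : Gpq p q) : (g⁻¹).x = -(((p : ℚ) / (q : ℚ)) ^ (-g.k) * g.x) := rfl
@[simp] theorem inv_k (g : Gpq p q) : (g⁻¹).k = -g.k := rfl

theorem w_ne (p q : ℕ+) : (p : ℚ) / (q : ℚ) ≠ 0 := by positivity

instance : Group (Gpq p q) :=
  Group.ofLeftAxioms
    (by
      intro g h l
      ext
      · simp only [mul_x, mul_k, zpow_add₀ (w_ne p q)]
        ring
      · simp only [mul_k]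
        ring)
    (by
      intro g
      ext
      · simp
      · simp)
    (by
      intro g
      ext
      · simp
      · simp)

/-- The generator `a = (1, 0)`. -/
def a : Gpq p q := ⟨1, 0, one_mem _⟩

/-- The generator `t = (0, 1)`. -/
def t : Gpq p q := ⟨0, 1, zero_mem _⟩

/-- The walk or switch generating set `S₁ = {a, a⁻¹, t, t⁻¹}` of `G_{p,q}`. -/
def S1 (p q : ℕ+) : Set (Gpq p q) := {a, a⁻¹, t, t⁻¹}

section Retreat

universe u

variable {H : Type u} [Group H]

/-- The word length `|g| = d(1, g)` with respect to `S`, measured in the Cayley graph. -/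
noncomputable def len (S : Set H) (g : H) : ℕ := (SimpleGraph.mulCayley S).dist 1 g

/-- The complement `G ∖ B(|g| - d - 1)` of a ball. -/
def outside (S : Set H) (g : H) (d : ℕ) : Set H := {h | (len S g : ℤ) - d - 1 < len S h}

/-- `v` lies in an infinite connected component of the subgraph of `Γ` induced on `U`. -/
def InInfiniteComponent {V : Type u} (Γ : SimpleGraph V) (U : Set V) (v : V) : Prop :=
  ∃ hv : v ∈ U, ((Γ.induce U).connectedComponentMk ⟨v, hv⟩).supp.Infinite

/-- The retreat depth `rd(g)`: the least `d ≥ 0` such that `g` lies in an infinite component of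
`G ∖ B(|g| - d - 1)`. -/
noncomputable def retreatDepth (S : Set H) (g : H) : ℕ :=
  sInf {d : ℕ | InInfiniteComponent (SimpleGraph.mulCayley S) (outside S g d) g}

/-- The Cayley graph with respect to `S` has bounded retreat depth. -/
def BoundedRetreatDepth (S : Set H) : Prop := BddAbove (Set.range (retreatDepth S))

end Retreat

end Pool.Agent.H73.Gpq
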