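import Mathlib

set_option autoImplicit false

/-! Digit lemmas for the lower bound (problem MP_6c6968_al). -/

namespace Pool.Agent.H73.Gpq

/-- value of a digit sequence -/
def val (m : ℤ) (M : ℕ) (d : ℕ → ℤ) : ℤ := ∑ i ∈ Finset.range (M + 1), d i * m ^ i

/-- digit cost plus twice the width -/
def cst (M : ℕ) (d : ℕ → ℤ) : ℤ := (∑ i ∈ Finset.range (M + 1), |d i|) + 2 * M

theorem val_zero (m : ℤ) (d : ℕ → ℤ) : val m 0 d = d 0 := by simp [val]

theorem cst_zero (d : ℕ → ℤ) : cst 0 d = |d 0| := by simp [cst]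

theorem val_succ (m : ℤ) (M : ℕ) (d : ℕ → ℤ) :
    val m (M + 1) d = d 0 + m * val m M (fun i => d (i + 1)) := by
  unfold val
  rw [Finset.sum_range_succ', Finset.mul_sum, add_comm]
  congr 1
  · simp
  · refine Finset.sum_congr rfl fun i _ => ?_
    ring

theorem cst_succ (M : ℕ) (d : ℕ → ℤ) :
    cst (M + 1) d = |d 0| + 2 + cst M (fun i => d (i + 1)) := by
  unfold cst
  rw [Finset.sum_range_succ' (fun i => |d i|)]
  push_cast
  ring

theorem cst_nonneg (M : ℕ) (d : ℕ → ℤ) : 0 ≤ cst M d := by
  unfold cst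
  have : 0 ≤ ∑ i ∈ Finset.range (M + 1), |d i| := Finset.sum_nonneg fun i _ => abs_nonneg _
  positivity

/-- The numbers `N_j` with digits alternating between `r1` and `r0` in base `m`. -/
def NN (m r0 r1 : ℤ) : ℕ → ℤ
  | 0 => 0
  | j + 1 => m * (m * NN m r0 r1 j + r0) + r1

theorem NN_zero (m r0 r1 : ℤ) : NN m r0 r1 0 = 0 := rfl
theorem NN_succ (m r0 r1 : ℤ) (j : ℕ) : NN m r0 r1 (j + 1) = m * (m * NN m r0 r1 j + r0) + r1 := rfl

/-- penalties -/
def penA (e : ℤ) : ℤ := max (-e) (e - 1)

/-- Lower bound function in the intermediate state. -/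
def gB (r0 r1 e : ℤ) : ℤ := min (r0 + e) (r1 - (e - 1))

section

variable (m r0 r1 : ℤ) (hm : 2 ≤ m) (h01 : r0 + r1 = m - 1) (hr : r1 ≤ r0) (hr' : r0 ≤ r1 + 1)

include hm h01 hr hr'

theorem stepB (e v : ℤ) : gB r0 r1 e ≤ |r0 + e + m * v| - penA (-v) := by
  unfold gB penA
  rcases le_or_gt 0 v with hv | hv
  · have h1 : r0 + e + m * v ≤ |r0 + e + m * v| := le_abs_self _
    have h2 : v ≤ m * v := by nlinarith
    have h3 : max (- -v) (-v - 1) = v := by
      rw [neg_neg]
      exact max_eq_left (by linarith)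
    rw [h3]
    refine le_trans (min_le_left _ _) ?_
    linarith
  · have h1 : -(r0 + e + m * v) ≤ |r0 + e + m * v| := neg_le_abs _
    have h3 : max (- -v) (-v - 1) = -v - 1 := by
      rw [neg_neg]
      exact max_eq_right (by omega)
    rw [h3]
    have h4 : m - 1 ≤ (m - 1) * (-v) := by nlinarith
    rcases le_or_gt e 0 with he | he
    · refine le_trans (min_le_left _ _) ?_
      nlinarith
    · refine le_trans (min_le_right _ _) ?_
      nlinarith

theorem stepA (e v : ℤ) : m - 1 - penA e ≤ |r1 + e + m * v| + gB r0 r1 (-v) := by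
  unfold gB penA
  rcases le_or_gt 0 v with hv | hv
  · have h1 : r1 + e + m * v ≤ |r1 + e + m * v| := le_abs_self _
    have h2 : v ≤ m * v := by nlinarith
    have h3 : min (r0 + -v) (r1 - (-v - 1)) = r0 - v := by
      rw [min_eq_left (by omega)]
      ring
    rw [h3]
    have h5 := le_max_left (-e) (e - 1)
    linarith
  · have h1 : -(r1 + e + m * v) ≤ |r1 + e + m * v| := neg_le_abs _
    have h3 : min (r0 + -v) (r1 - (-v - 1)) = r1 + v + 1 := by
      rw [min_eq_right (by omega)]
      ring
    rw [h3]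
    have h4 : m - 1 ≤ (m - 1) * (-v) := by nlinarith
    have h5 := le_max_right (-e) (e - 1)
    nlinarith

theorem r0_pos : 1 ≤ r0 := by omega

theorem NN_nonneg (j : ℕ) : 0 ≤ NN m r0 r1 j := by
  have hr0 : 1 ≤ r0 := by omega
  have hr1 : 0 ≤ r1 := by omega
  induction j with
  | zero => exact le_refl _
  | succ j ih =>
    rw [NN_succ]
    positivity

theorem NN_ge (j : ℕ) : m * (j + 1) ≤ NN m r0 r1 (j + 1) ∧ (m + 3) * (j + 1) - 5 ≤ NN m r0 r1 (j + 1) := by
  have hr0 : 1 ≤ r0 := by omega
  have hr1 : 0 ≤ r1 := by omega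
  induction j with
  | zero =>
    rw [NN_succ, NN_zero]
    push_cast
    constructor <;> nlinarith
  | succ j ih =>
    rw [NN_succ]
    push_cast
    have h1 : m ≤ NN m r0 r1 (j + 1) := by
      have : (0 : ℤ) ≤ j := by positivity
      nlinarith [ih.1]
    set N := NN m r0 r1 (j + 1)
    have h2 : 4 * N ≤ m * (m * N) := by
      have e1 : 2 * N ≤ m * N := by nlinarith
      have e2 : 2 * (m * N) ≤ m * (m * N) := by nlinarith
      linarith
    have h3 : m * (m * N + r0) + r1 = m * (m * N) + m * r0 + r1 := by ring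
    have h4 : 0 ≤ m * r0 := by positivity
    constructor
    · nlinarith [ih.1]
    · nlinarith [ih.2]

theorem NN_ge' (j : ℕ) : (m + 3) * j - 5 ≤ NN m r0 r1 j := by
  cases j with
  | zero => rw [NN_zero]; push_cast; linarith
  | succ j =>
    have := (NN_ge m r0 r1 hm h01 hr hr' j).2
    push_cast
    exact this

theorem m_NN_ge (j : ℕ) : (m + 3) * j - 3 ≤ m * NN m r0 r1 j := by
  cases j with
  | zero => rw [NN_zero]; push_cast; linarith
  | succ j =>
    have h1 := (NN_ge m r0 r1 hm h01 hr hr' j)
    push_cast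
    have h2 : m ≤ NN m r0 r1 (j + 1) := by
      have : (0 : ℤ) ≤ j := by positivity
      nlinarith [h1.1]
    nlinarith [h1.2]

/-- the two-state induction -/
theorem lower_AB (j : ℕ) :
    (∀ (M : ℕ) (d : ℕ → ℤ) (e : ℤ), val m M d = NN m r0 r1 j + e →
      (m + 3) * j - 6 ≤ cst M d + penA e) ∧
    (∀ (M : ℕ) (d : ℕ → ℤ) (e : ℤ), val m M d = m * NN m r0 r1 j + r0 + e →
      (m + 3) * j - 6 + 2 + gB r0 r1 e ≤ cst M d) := by
  have hA : ∀ j : ℕ, (∀ (M : ℕ) (d : ℕ → ℤ) (e : ℤ), val m M d = NN m r0 r1 j + e →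
      (m + 3) * j - 6 ≤ cst M d + penA e) →
      (∀ (M : ℕ) (d : ℕ → ℤ) (e : ℤ), val m M d = m * NN m r0 r1 j + r0 + e →
      (m + 3) * j - 6 + 2 + gB r0 r1 e ≤ cst M d) := by
    intro j ihA M d e hv
    cases M with
    | zero =>
      rw [val_zero] at hv
      rw [cst_zero, hv]
      have h1 := m_NN_ge m r0 r1 hm h01 hr hr' j
      have h2 := le_abs_self (m * NN m r0 r1 j + r0 + e)
      have h3 : gB r0 r1 e ≤ r0 + e := min_le_left _ _
      linarith
    | succ M =>
      rw [val_succ] at hv
      rw [cst_succ]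
      set V := val m M (fun i => d (i + 1)) with hV
      have h1 := ihA M (fun i => d (i + 1)) (-(NN m r0 r1 j - V)) (by rw [← hV]; ring)
      have h2 := stepB m r0 r1 hm h01 hr hr' e (NN m r0 r1 j - V)
      have h3 : r0 + e + m * (NN m r0 r1 j - V) = d 0 := by linear_combination (-1 : ℤ) * hv
      rw [h3] at h2
      linarith
  induction j with
  | zero =>
    refine ⟨?_, ?_⟩
    · intro M d e _
      have h1 := cst_nonneg M d
      have h2 : -1 ≤ penA e := by
        unfold penA
        rcases le_or_gt e 0 with he | he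
        · exact le_trans (by omega) (le_max_left _ _)
        · exact le_trans (by omega) (le_max_right _ _)
      push_cast
      linarith
    · apply hA
      intro M d e _
      have h1 := cst_nonneg M d
      have h2 : -1 ≤ penA e := by
        unfold penA
        rcases le_or_gt e 0 with he | he
        · exact le_trans (by omega) (le_max_left _ _)
        · exact le_trans (by omega) (le_max_right _ _)
      push_cast
      linarith
  | succ j ih =>
    have hB : ∀ (M : ℕ) (d : ℕ → ℤ) (e : ℤ), val m M d = NN m r0 r1 (j + 1) + e →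
        (m + 3) * ((j + 1 : ℕ) : ℤ) - 6 ≤ cst M d + penA e := by
      intro M d e hv
      cases M with
      | zero =>
        rw [val_zero] at hv
        rw [cst_zero, hv]
        have h1 := NN_ge' m r0 r1 hm h01 hr hr' (j + 1)
        have h2 := le_abs_self (NN m r0 r1 (j + 1) + e)
        have h3 := le_max_left (-e) (e - 1)
        unfold penA
        linarith
      | succ M =>
        rw [val_succ, NN_succ] at hv
        rw [cst_succ]
        set V := val m M (fun i => d (i + 1)) with hV
        have h1 := ih.2 M (fun i => d (i + 1)) (-(m * NN m r0 r1 j + r0 - V))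
          (by rw [← hV]; ring)
        have h2 := stepA m r0 r1 hm h01 hr hr' e (m * NN m r0 r1 j + r0 - V)
        have h3 : r1 + e + m * (m * NN m r0 r1 j + r0 - V) = d 0 := by
          linear_combination (-1 : ℤ) * hv
        rw [h3] at h2
        push_cast
        linarith
    exact ⟨hB, hA (j + 1) hB⟩

/-- with low digit `1` -/
theorem lower_one (j : ℕ) (M : ℕ) (d : ℕ → ℤ) (e : ℤ)
    (hv : val m M d = m * NN m r0 r1 j + 1 + e) : (m + 3) * j - 6 ≤ cst M d + |e| := by
  cases M with
  | zero =>
    rw [val_zero] at hv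
    rw [cst_zero, hv]
    have h1 := m_NN_ge m r0 r1 hm h01 hr hr' j
    have h2 := le_abs_self (m * NN m r0 r1 j + 1 + e)
    have h3 := neg_le_abs e
    linarith
  | succ M =>
    rw [val_succ] at hv
    rw [cst_succ]
    set V := val m M (fun i => d (i + 1)) with hV
    have h1 := (lower_AB m r0 r1 hm h01 hr hr' j).1 M (fun i => d (i + 1)) (-(NN m r0 r1 j - V))
      (by rw [← hV]; ring)
    have h3 : 1 + e + m * (NN m r0 r1 j - V) = d 0 := by linear_combination (-1 : ℤ) * hv
    set u := NN m r0 r1 j - V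
    have h4 : |1 + m * u| ≤ |d 0| + |e| := by
      rw [← h3]
      have : 1 + m * u = (1 + e + m * u) + (-e) := by ring
      rw [this]
      refine le_trans (abs_add_le _ _) ?_
      rw [abs_neg]
    have h5 : penA (-u) ≤ |1 + m * u| := by
      unfold penA
      rw [neg_neg]
      rcases le_or_gt 0 u with hu | hu
      · rw [max_eq_left (by linarith)]
        exact le_trans (by nlinarith) (le_abs_self _)
      · rw [max_eq_right (by linarith)]
        refine le_trans ?_ (neg_le_abs _)
        nlinarith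
    linarith

/-- with trailing zeros -/
theorem lower_final (z j : ℕ) : ∀ (M : ℕ) (d : ℕ → ℤ) (e : ℤ), z ≤ M →
    val m M d = m ^ z * (m * NN m r0 r1 j + 1) + e → (m + 3) * j - 6 ≤ cst M d - 2 * z + |e| := by
  induction z with
  | zero =>
    intro M d e _ hv
    have := lower_one m r0 r1 hm h01 hr hr' j M d e (by rw [hv]; ring)
    push_cast
    linarith
  | succ z ih =>
    intro M d e hM hv
    obtain ⟨M, rfl⟩ : ∃ M', M = M' + 1 := ⟨M - 1, by omega⟩
    rw [val_succ] at hv
    rw [cst_succ]
    set V := val m M (fun i => d (i + 1)) with hV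
    have h1 := ih M (fun i => d (i + 1)) (V - m ^ z * (m * NN m r0 r1 j + 1)) (by omega)
      (by rw [← hV]; ring)
    set u := V - m ^ z * (m * NN m r0 r1 j + 1) with hu
    have h3 : d 0 = e - m * u := by
      rw [hu]
      rw [pow_succ] at hv
      linear_combination hv
    have h4 : |u| ≤ |d 0| + |e| := by
      have h5 : |m * u| ≤ |d 0| + |e| := by
        have : m * u = e + -(d 0) := by rw [h3]; ring
        rw [this]
        refine le_trans (abs_add_le _ _) ?_
        rw [abs_neg]
        linarith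
      have h6 : |u| ≤ |m * u| := by
        rw [abs_mul]
        have : 1 ≤ |m| := by
          rw [abs_of_nonneg (by linarith)]
          linarith
        nlinarith [abs_nonneg u]
      linarith
    push_cast
    linarith

theorem NN_lt (j : ℕ) : NN m r0 r1 j + 1 ≤ m ^ (2 * j) := by
  induction j with
  | zero => rw [NN_zero]; simp
  | succ j ih =>
    rw [NN_succ, show 2 * (j + 1) = 2 * j + 2 by ring, pow_add]
    have hr0 : 1 ≤ r0 := by omega
    have hr1 : 0 ≤ r1 := by omega
    have h1 : m ^ 2 * (NN m r0 r1 j + 1) ≤ m ^ 2 * m ^ (2 * j) := by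
      apply mul_le_mul_of_nonneg_left ih
      positivity
    have h2 : m * r0 + r1 + 1 ≤ m ^ 2 := by nlinarith
    nlinarith

end

end Pool.Agent.H73.Gpq
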