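import Pool.Agent.H73.GpqMain

set_option autoImplicit false

/-! Unbounded retreat depth of `G_{m,1}`, conclusion (problem MP_6c6968_al). -/

namespace Pool.Agent.H73.Gpq

variable {m : ℕ+}

theorem step_a (n : ℕ) (h : Gpq m 1) (hh : h ∈ Om m n) (ε : ℤ) (hε : ε = 1 ∨ ε = -1)
    (hout : ¬ |h.x + (m : ℚ) ^ h.k * ε| ≤ (m : ℚ) * (m : ℚ) ^ n) :
    2 * len (S1 m 1) h ≤ Bd m n := by
  obtain ⟨⟨N, hN⟩, hx, hk⟩ := hh
  have hm0 : (0 : ℚ) < (m : ℚ) := by
    have := m.pos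
    exact_mod_cast this
  have hpow : (0 : ℚ) < (m : ℚ) ^ n := by positivity
  have hwk : (0 : ℚ) < (m : ℚ) ^ h.k := by positivity
  obtain ⟨hk1, hk2⟩ := abs_le.1 hk
  obtain ⟨hx1, hx2⟩ := abs_le.1 hx
  set T : ℚ := (m : ℚ) * (m : ℚ) ^ n with hT
  have hmul : (m : ℚ) ^ h.k * (m : ℚ) ^ n = (m : ℚ) ^ ((n : ℤ) + h.k) := by
    rw [zpow_add₀ hm0.ne', zpow_natCast]
    ring
  have hTn : T * (m : ℚ) ^ n = (m : ℚ) * (m : ℚ) ^ (2 * n) := by
    rw [hT, show 2 * n = n + n by ring, pow_add]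
    ring
  by_cases hpos : T < h.x + (m : ℚ) ^ h.k * ε
  · -- leave through the top
    have hε1 : ε = 1 := by
      rcases hε with h1 | h1
      · exact h1
      · exfalso
        rw [h1] at hpos
        push_cast at hpos
        linarith
    rw [hε1] at hpos
    push_cast at hpos
    refine len_side n h ((m : ℤ) * (m : ℤ) ^ (2 * n) - N) 1 (Or.inl rfl) hk1 hk2 ?_ ?_ ?_
    · rw [hN]
      push_cast
      ring
    · have h1 : (N : ℚ) ≤ (m : ℚ) * (m : ℚ) ^ (2 * n) := by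
        rw [← hN, ← hTn]
        exact mul_le_mul_of_nonneg_right hx2 hpow.le
      have h2 : N ≤ (m : ℤ) * (m : ℤ) ^ (2 * n) := by exact_mod_cast h1
      linarith
    · push_cast
      rw [← hN, ← hTn, ← hmul, ← sub_mul]
      exact mul_le_mul_of_nonneg_right (by linarith) hpow.le
  · -- leave through the bottom
    have hneg : h.x + (m : ℚ) ^ h.k * ε < -T := by
      by_contra hcon
      apply hout
      rw [abs_le]
      exact ⟨not_lt.1 hcon, not_lt.1 hpos⟩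
    have hε1 : ε = -1 := by
      rcases hε with h1 | h1
      · exfalso
        rw [h1] at hneg
        push_cast at hneg
        linarith
      · exact h1
    rw [hε1] at hneg
    push_cast at hneg
    refine len_side n h ((m : ℤ) * (m : ℤ) ^ (2 * n) + N) (-1) (Or.inr rfl) hk1 hk2 ?_ ?_ ?_
    · rw [hN]
      push_cast
      ring
    · have h1 : -(N : ℚ) ≤ (m : ℚ) * (m : ℚ) ^ (2 * n) := by
        rw [← hN, ← hTn, ← neg_mul]
        exact mul_le_mul_of_nonneg_right (by linarith) hpow.le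
      have h2 : -N ≤ (m : ℤ) * (m : ℤ) ^ (2 * n) := by exact_mod_cast h1
      linarith
    · push_cast
      rw [← hN, ← hTn, ← hmul, ← add_mul]
      exact mul_le_mul_of_nonneg_right (by linarith) hpow.le

theorem int_step (n : ℕ) (h : Gpq m 1) (hh : h ∈ Om m n) (ε : ℤ) :
    ∃ N' : ℤ, (h.x + (m : ℚ) ^ h.k * ε) * (m : ℚ) ^ n = N' := by
  obtain ⟨⟨N, hN⟩, hx, hk⟩ := hh
  have hm0 : (0 : ℚ) < (m : ℚ) := by
    have := m.pos
    exact_mod_cast this
  obtain ⟨hk1, hk2⟩ := abs_le.1 hk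
  obtain ⟨M, hM⟩ : ∃ M : ℕ, (n : ℤ) + h.k = M := ⟨((n : ℤ) + h.k).toNat, by omega⟩
  refine ⟨N + (m : ℤ) ^ M * ε, ?_⟩
  have hmul : (m : ℚ) ^ h.k * (m : ℚ) ^ n = (m : ℚ) ^ M := by
    rw [← zpow_natCast (m : ℚ) M, ← hM, zpow_add₀ hm0.ne', zpow_natCast]
    ring
  push_cast
  rw [add_mul, hN, ← hmul]
  ring

/-- Inner boundary elements of `Om` are short. -/
theorem boundary (n : ℕ) (h h' : Gpq m 1) (hh : h ∈ Om m n)
    (hadj : (SimpleGraph.mulCayley (S1 m 1)).Adj h h') (hh' : h' ∉ Om m n) :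
    2 * len (S1 m 1) h ≤ Bd m n := by
  have hmem := hh
  obtain ⟨⟨N, hN⟩, hx, hk⟩ := hh
  obtain ⟨hk1, hk2⟩ := abs_le.1 hk
  rw [SimpleGraph.mulCayley_adj'] at hadj
  obtain ⟨_, s, hs, hgs⟩ := hadj
  have key : h' = h * a ∨ h' = h * a⁻¹ ∨ h' = h * t ∨ h' = h * t⁻¹ := by
    have hs' : s = a ∨ s = a⁻¹ ∨ s = t ∨ s = t⁻¹ := by
      simpa [S1] using hs
    rcases hgs with hgs | hgs
    · rcases hs' with rfl | rfl | rfl | rfl
      · exact Or.inl hgs.symm
      · exact Or.inr (Or.inl hgs.symm)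
      · exact Or.inr (Or.inr (Or.inl hgs.symm))
      · exact Or.inr (Or.inr (Or.inr hgs.symm))
    · have hh : h' = h * s⁻¹ := by rw [hgs]; group
      rcases hs' with rfl | rfl | rfl | rfl
      · exact Or.inr (Or.inl hh)
      · rw [inv_inv] at hh
        exact Or.inl hh
      · exact Or.inr (Or.inr (Or.inr hh))
      · rw [inv_inv] at hh
        exact Or.inr (Or.inr (Or.inl hh))
  rcases key with rfl | rfl | rfl | rfl
  · have e1 : (h * a).x = h.x + (m : ℚ) ^ h.k * (1 : ℤ) := by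
      rw [mul_x, w_eq]
      simp [a]
    have e2 : (h * a).k = h.k := by simp [a]
    refine step_a n h hmem 1 (Or.inl rfl) ?_
    intro hle
    apply hh'
    refine ⟨?_, ?_, ?_⟩
    · rw [e1]
      exact int_step n h hmem 1
    · rw [e1]
      exact hle
    · rw [e2]
      exact hk
  · have e1 : (h * a⁻¹).x = h.x + (m : ℚ) ^ h.k * (-1 : ℤ) := by
      rw [mul_x, w_eq]
      simp [a]
    have e2 : (h * a⁻¹).k = h.k := by simp [a]
    refine step_a n h hmem (-1) (Or.inr rfl) ?_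
    intro hle
    apply hh'
    refine ⟨?_, ?_, ?_⟩
    · rw [e1]
      exact int_step n h hmem (-1)
    · rw [e1]
      exact hle
    · rw [e2]
      exact hk
  · have e1 : (h * t).x = h.x := by simp [t]
    have e2 : (h * t).k = h.k + 1 := by simp [t]
    refine len_top n h N hN hx ?_
    by_contra hcon
    apply hh'
    refine ⟨⟨N, by rw [e1]; exact hN⟩, by rw [e1]; exact hx, ?_⟩
    rw [e2, abs_le]
    omega
  · have e1 : (h * t⁻¹).x = h.x := by simp [t]
    have e2 : (h * t⁻¹).k = h.k - 1 := by simp [t, sub_eq_add_neg]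
    refine len_bot n h N hN hx ?_
    by_contra hcon
    apply hh'
    refine ⟨⟨N, by rw [e1]; exact hN⟩, by rw [e1]; exact hx, ?_⟩
    rw [e2, abs_le]
    omega

/-- Membership of `N / m ^ n` in the ring `A`. -/
theorem div_mem (m : ℕ+) (N : ℤ) (n : ℕ) : (N : ℚ) / (m : ℚ) ^ n ∈ A m 1 := by
  rw [div_eq_mul_inv]
  refine mul_mem (natCast_mem m 1 N) ?_
  have := zpow_mem m 1 (-(n : ℤ))
  rwa [w_eq, zpow_neg, zpow_natCast] at this

/-- The deep elements. -/
def gn (m : ℕ+) (n : ℕ) : Gpq m 1 :=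
  ⟨(((m : ℤ) * NN m (((m : ℕ) / 2 : ℕ) : ℤ) ((((m : ℕ) - 1) / 2 : ℕ) : ℤ) n + 1 : ℤ) : ℚ) /
    (m : ℚ) ^ n, 0, div_mem m _ n⟩

theorem r_facts (hm : 2 ≤ (m : ℕ)) : (2 : ℤ) ≤ (m : ℤ) ∧
    (((m : ℕ) / 2 : ℕ) : ℤ) + ((((m : ℕ) - 1) / 2 : ℕ) : ℤ) = (m : ℤ) - 1 ∧
    ((((m : ℕ) - 1) / 2 : ℕ) : ℤ) ≤ (((m : ℕ) / 2 : ℕ) : ℤ) ∧
    (((m : ℕ) / 2 : ℕ) : ℤ) ≤ ((((m : ℕ) - 1) / 2 : ℕ) : ℤ) + 1 := by
  have h1 : ((m : ℕ) : ℤ) = (m : ℤ) := rfl
  refine ⟨by omega, by omega, by omega, by omega⟩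

theorem gn_mem (hm : 2 ≤ (m : ℕ)) (n : ℕ) : gn m n ∈ Om m n := by
  have hm0 : (0 : ℚ) < (m : ℚ) := by
    have := m.pos
    exact_mod_cast this
  have hpow : (0 : ℚ) < (m : ℚ) ^ n := by positivity
  obtain ⟨h2, h01, hr, hr'⟩ := r_facts hm
  refine ⟨⟨_, div_mul_cancel₀ _ hpow.ne'⟩, ?_, ?_⟩
  · set r0 : ℤ := (((m : ℕ) / 2 : ℕ) : ℤ)
    set r1 : ℤ := ((((m : ℕ) - 1) / 2 : ℕ) : ℤ)
    have hlt := NN_lt m r0 r1 h2 h01 hr hr' n
    have hnn := NN_nonneg m r0 r1 h2 h01 hr hr' n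
    have h3 : |(m : ℤ) * NN m r0 r1 n + 1| ≤ (m : ℤ) * (m : ℤ) ^ (2 * n) := by
      rw [abs_of_nonneg (by positivity)]
      nlinarith
    have h4 : |(((m : ℤ) * NN m r0 r1 n + 1 : ℤ) : ℚ)| ≤ (m : ℚ) * (m : ℚ) ^ (2 * n) := by
      have h5 : ((|(m : ℤ) * NN m r0 r1 n + 1| : ℤ) : ℚ) ≤
          (((m : ℤ) * (m : ℤ) ^ (2 * n) : ℤ) : ℚ) := by exact_mod_cast h3
      rw [Int.cast_abs] at h5
      refine h5.trans ?_
      push_cast
      exact le_refl _
    show |(((m : ℤ) * NN m r0 r1 n + 1 : ℤ) : ℚ) / (m : ℚ) ^ n| ≤ (m : ℚ) * (m : ℚ) ^ n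
    rw [abs_div, abs_of_pos hpow, div_le_iff₀ hpow, mul_assoc, ← pow_add, ← two_mul]
    exact h4
  · show |(0 : ℤ)| ≤ n
    simp

theorem gn_len (hm : 2 ≤ (m : ℕ)) (n : ℕ) :
    ((m : ℕ) + 3) * n ≤ len (S1 m 1) (gn m n) + 6 := by
  obtain ⟨h2, h01, hr, hr'⟩ := r_facts hm
  have hm0 : (0 : ℚ) < (m : ℚ) := by
    have := m.pos
    exact_mod_cast this
  have hpow : (0 : ℚ) < (m : ℚ) ^ n := by positivity
  -- reachability
  have hreach : (SimpleGraph.mulCayley (S1 m 1)).Reachable 1 (gn m n) := by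
    set N : ℤ := (m : ℤ) * NN m (((m : ℕ) / 2 : ℕ) : ℤ) ((((m : ℕ) - 1) / 2 : ℕ) : ℤ) n + 1
      with hN
    have e1 : gn m n = t ^ (-(n : ℤ)) * a ^ N * t ^ (n : ℤ) := by
      have h1 := t_zpow (p := m) (q := 1) (-(n : ℤ))
      have h3 := t_zpow (p := m) (q := 1) (n : ℤ)
      have h4 := a_zpow (p := m) (q := 1) N
      ext
      · simp only [mul_x, mul_k, h1.1, h1.2, h3.1, h4.1, w_eq]
        show (N : ℚ) / (m : ℚ) ^ n = _
        rw [zpow_neg, zpow_natCast]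
        field_simp
        ring
      · simp only [mul_k, h1.2, h3.2, h4.2]
        show (0 : ℤ) = _
        ring
    rw [e1]
    exact (((reach_t_zpow _).mul (reach_a_zpow _)).mul (reach_t_zpow _)).reachable
  have hrep := rep_len (gn m n) hreach
  rw [w_eq] at hrep
  have := rep_lower (m : ℕ) hm _ _ h01 hr hr' n (gn m n).x (div_mul_cancel₀ _ hpow.ne') _ hrep
  have h5 : (((m : ℕ) + 3) * n : ℤ) ≤ (len (S1 m 1) (gn m n) : ℤ) + 6 := by linarith
  exact_mod_cast h5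

/-- If `U` is everything then the component is infinite. -/
theorem infinite_univ {p q : ℕ+} (U : Set (Gpq p q)) (hU : ∀ h, h ∈ U) (g : Gpq p q) :
    InInfiniteComponent (SimpleGraph.mulCayley (S1 p q)) U g := by
  refine ⟨hU g, ?_⟩
  have hreach : ∀ j : ℕ, ((SimpleGraph.mulCayley (S1 p q)).induce U).Reachable ⟨g, hU g⟩
      ⟨g * t ^ j, hU _⟩ := by
    intro j
    induction j with
    | zero =>
      have : (⟨g * t ^ 0, hU _⟩ : U) = ⟨g, hU g⟩ := Subtype.ext (by simp)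
      rw [this]
    | succ j ih =>
      refine ih.trans (SimpleGraph.Adj.reachable ?_)
      rw [SimpleGraph.induce_adj, SimpleGraph.mulCayley_adj']
      refine ⟨?_, t, t_mem, Or.inl ?_⟩
      · intro he
        have := congrArg Gpq.k he
        simp only [mul_k, (t_pow _).2] at this
        push_cast at this
        omega
      · rw [pow_succ, mul_assoc]
  have hinj : Function.Injective (fun j : ℕ => (⟨g * t ^ j, hU _⟩ : U)) := by
    intro i j hij
    have := congrArg (fun v : U => v.1.k) hij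
    simp only [mul_k, (t_pow _).2] at this
    omega
  refine (Set.infinite_range_of_injective hinj).mono ?_
  rintro _ ⟨j, rfl⟩
  rw [SimpleGraph.ConnectedComponent.mem_supp_iff, SimpleGraph.ConnectedComponent.eq]
  exact (hreach j).symm

theorem retreat_gt (hm : 2 ≤ (m : ℕ)) (d n : ℕ) (hn : 2 * d + 2 * m + 16 ≤ n) :
    d < retreatDepth (S1 m 1) (gn m n) := by
  have hne : {d : ℕ | InInfiniteComponent (SimpleGraph.mulCayley (S1 m 1))
      (outside (S1 m 1) (gn m n) d) (gn m n)}.Nonempty := by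
    refine ⟨len (S1 m 1) (gn m n), infinite_univ _ ?_ _⟩
    intro h
    show (len (S1 m 1) (gn m n) : ℤ) - (len (S1 m 1) (gn m n) : ℕ) - 1 < len (S1 m 1) h
    omega
  have hmem := Nat.sInf_mem hne
  by_contra hcon
  push Not at hcon
  set D := retreatDepth (S1 m 1) (gn m n) with hD
  have hmem' : InInfiniteComponent (SimpleGraph.mulCayley (S1 m 1))
      (outside (S1 m 1) (gn m n) D) (gn m n) := hmem
  obtain ⟨hv, hinf⟩ := hmem'
  apply hinf
  -- all vertices of the component lie in `Om`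
  have hwalk : ∀ (u v : outside (S1 m 1) (gn m n) D)
      (_ : ((SimpleGraph.mulCayley (S1 m 1)).induce (outside (S1 m 1) (gn m n) D)).Walk u v),
      u.1 ∈ Om m n → v.1 ∈ Om m n := by
    intro u v W
    induction W with
    | nil => exact id
    | cons hadj W ih =>
      rename_i u u' v
      intro hu
      apply ih
      by_contra hu'
      rw [SimpleGraph.induce_adj] at hadj
      have h1 := boundary n u.1 u'.1 hu hadj hu'
      have h2 : (len (S1 m 1) (gn m n) : ℤ) - D - 1 < len (S1 m 1) u.1 := u.2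
      have h3 := gn_len hm n
      have h4 : len (S1 m 1) (gn m n) ≤ len (S1 m 1) u.1 + D := by omega
      have h5 : 2 * (((m : ℕ) + 3) * n) ≤ Bd m n + 2 * D + 12 := by omega
      unfold Bd at h5
      rcases le_total ((2 * (m : ℕ) + 4) * n) (((m : ℕ) + 7) * n) with h6 | h6
      · rw [max_eq_right h6] at h5
        nlinarith
      · rw [max_eq_left h6] at h5
        nlinarith
  refine ((Om_finite (m := m) n).preimage (f := Subtype.val)
    (Set.injOn_of_injective Subtype.val_injective)).subset ?_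
  intro v hvs
  rw [SimpleGraph.ConnectedComponent.mem_supp_iff, SimpleGraph.ConnectedComponent.eq] at hvs
  obtain ⟨W⟩ := hvs.symm
  exact hwalk _ _ W (gn_mem hm n)

/-- `G_{m,1}` has unbounded retreat depth for the walk or switch generating set. -/
theorem unbounded_left (hm : 2 ≤ (m : ℕ)) : ¬ BoundedRetreatDepth (S1 m 1) := by
  rintro ⟨d, hd⟩
  have h1 := retreat_gt hm d (2 * d + 2 * m + 16) (le_refl _)
  have h2 := hd ⟨gn m (2 * d + 2 * m + 16), rfl⟩
  omega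

end Pool.Agent.H73.Gpq
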