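import Pool.Agent.H73.GpqFinal

set_option autoImplicit false

/-! Transport along isomorphisms and the groups `G_{1,m}` (problem MP_6c6968_al). -/

namespace Pool.Agent.H73.Gpq

section Transport

universe u

variable {H H' : Type u} [Group H] [Group H']

theorem adj_transport (e : H ≃* H') (S : Set H) (S' : Set H') (hS : ∀ s, s ∈ S ↔ e s ∈ S')
    (u v : H) : (SimpleGraph.mulCayley S).Adj u v → (SimpleGraph.mulCayley S').Adj (e u) (e v) := by
  rw [SimpleGraph.mulCayley_adj', SimpleGraph.mulCayley_adj']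
  rintro ⟨hne, s, hs, h⟩
  refine ⟨fun h0 => hne (e.injective h0), e s, (hS s).1 hs, ?_⟩
  rcases h with h | h
  · left
    rw [← map_mul, h]
  · right
    rw [← map_mul, h]

/-- the graph homomorphism induced by `e` -/
def homOf (e : H ≃* H') (S : Set H) (S' : Set H') (hS : ∀ s, s ∈ S ↔ e s ∈ S') :
    SimpleGraph.mulCayley S →g SimpleGraph.mulCayley S' where
  toFun := e
  map_rel' := fun {u v} h => adj_transport e S S' hS u v h

theorem symm_cond (e : H ≃* H') (S : Set H) (S' : Set H') (hS : ∀ s, s ∈ S ↔ e s ∈ S') :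
    ∀ s, s ∈ S' ↔ e.symm s ∈ S := by
  intro s
  rw [hS, MulEquiv.apply_symm_apply]

theorem reachable_transport (e : H ≃* H') (S : Set H) (S' : Set H')
    (hS : ∀ s, s ∈ S ↔ e s ∈ S') (u v : H) (h : (SimpleGraph.mulCayley S).Reachable u v) :
    (SimpleGraph.mulCayley S').Reachable (e u) (e v) :=
  h.map (homOf e S S' hS)

theorem dist_transport_le (e : H ≃* H') (S : Set H) (S' : Set H')
    (hS : ∀ s, s ∈ S ↔ e s ∈ S') (u v : H) (h : (SimpleGraph.mulCayley S).Reachable u v) :
    (SimpleGraph.mulCayley S').dist (e u) (e v) ≤ (SimpleGraph.mulCayley S).dist u v := by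
  obtain ⟨W, hW⟩ := h.exists_walk_length_eq_dist
  rw [← hW, ← SimpleGraph.Walk.length_map (homOf e S S' hS) W]
  exact SimpleGraph.dist_le _

theorem len_transport (e : H ≃* H') (S : Set H) (S' : Set H')
    (hS : ∀ s, s ∈ S ↔ e s ∈ S') (g : H) : len S' (e g) = len S g := by
  unfold len
  by_cases h : (SimpleGraph.mulCayley S).Reachable 1 g
  · apply le_antisymm
    · have := dist_transport_le e S S' hS 1 g h
      rwa [map_one] at this
    · have h' := reachable_transport e S S' hS 1 g h
      rw [map_one] at h'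
      have := dist_transport_le e.symm S' S (symm_cond e S S' hS) 1 (e g) h'
      rwa [map_one, MulEquiv.symm_apply_apply] at this
  · have h' : ¬ (SimpleGraph.mulCayley S').Reachable 1 (e g) := by
      intro h'
      apply h
      have := reachable_transport e.symm S' S (symm_cond e S S' hS) 1 (e g) h'
      rwa [map_one, MulEquiv.symm_apply_apply] at this
    rw [SimpleGraph.dist_eq_zero_of_not_reachable h, SimpleGraph.dist_eq_zero_of_not_reachable h']

theorem comp_transport (e : H ≃* H') (S : Set H) (S' : Set H')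
    (hS : ∀ s, s ∈ S ↔ e s ∈ S') (U : Set H) (U' : Set H') (hU : ∀ h, h ∈ U ↔ e h ∈ U') (g : H)
    (h : InInfiniteComponent (SimpleGraph.mulCayley S) U g) :
    InInfiniteComponent (SimpleGraph.mulCayley S') U' (e g) := by
  obtain ⟨hv, hinf⟩ := h
  refine ⟨(hU g).1 hv, ?_⟩
  let φ : (SimpleGraph.mulCayley S).induce U →g (SimpleGraph.mulCayley S').induce U' :=
    { toFun := fun v => ⟨e v.1, (hU v.1).1 v.2⟩
      map_rel' := by
        intro u v huv
        exact adj_transport e S S' hS u.1 v.1 huv }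
  have hinj : Function.Injective φ := by
    intro u v huv
    have h1 : e u.1 = e v.1 := congrArg Subtype.val huv
    exact Subtype.ext (e.injective h1)
  refine (hinf.image hinj.injOn).mono ?_
  rintro _ ⟨v, hvs, rfl⟩
  rw [SimpleGraph.ConnectedComponent.mem_supp_iff, SimpleGraph.ConnectedComponent.eq] at hvs ⊢
  exact hvs.map φ

theorem retreat_transport (e : H ≃* H') (S : Set H) (S' : Set H')
    (hS : ∀ s, s ∈ S ↔ e s ∈ S') (g : H) : retreatDepth S' (e g) = retreatDepth S g := by
  unfold retreatDepth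
  congr 1
  ext d
  simp only [Set.mem_ofPred_eq]
  have hU : ∀ h, h ∈ outside S g d ↔ e h ∈ outside S' (e g) d := by
    intro h
    show (len S g : ℤ) - d - 1 < len S h ↔ (len S' (e g) : ℤ) - d - 1 < len S' (e h)
    rw [len_transport e S S' hS, len_transport e S S' hS]
  constructor
  · intro h
    have := comp_transport e.symm S' S (symm_cond e S S' hS) (outside S' (e g) d)
      (outside S g d) (by
        intro h
        rw [hU, MulEquiv.apply_symm_apply]) (e g) h
    rwa [MulEquiv.symm_apply_apply] at this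
  · intro h
    exact comp_transport e S S' hS _ _ hU g h

theorem bounded_transport (e : H ≃* H') (S : Set H) (S' : Set H')
    (hS : ∀ s, s ∈ S ↔ e s ∈ S') (h : BoundedRetreatDepth S') : BoundedRetreatDepth S := by
  obtain ⟨D, hD⟩ := h
  refine ⟨D, ?_⟩
  rintro _ ⟨g, rfl⟩
  rw [← retreat_transport e S S' hS g]
  exact hD ⟨e g, rfl⟩

end Transport

theorem A_comm (p q : ℕ+) : A p q = A q p := by
  unfold A
  rw [Set.pair_comm]

theorem w_inv (p q : ℕ+) (k : ℤ) : ((q : ℚ) / (p : ℚ)) ^ (-k) = ((p : ℚ) / (q : ℚ)) ^ k := by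
  rw [zpow_neg, ← inv_zpow, inv_div]

/-- The isomorphism `(x, k) ↦ (x, -k)` from `G_{p,q}` to `G_{q,p}`. -/
def flip (p q : ℕ+) : Gpq p q ≃* Gpq q p where
  toFun g := ⟨g.x, -g.k, by rw [A_comm q p]; exact g.mem⟩
  invFun g := ⟨g.x, -g.k, by rw [A_comm p q]; exact g.mem⟩
  left_inv g := by
    ext
    · rfl
    · exact neg_neg _
  right_inv g := by
    ext
    · rfl
    · exact neg_neg _
  map_mul' g h := by
    ext
    · show g.x + ((p : ℚ) / (q : ℚ)) ^ g.k * h.x = g.x + ((q : ℚ) / (p : ℚ)) ^ (-g.k) * h.x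
      rw [w_inv]
    · show -(g.k + h.k) = -g.k + -h.k
      ring

theorem flip_a (p q : ℕ+) : flip p q a = a := rfl

theorem flip_t (p q : ℕ+) : flip p q t = t⁻¹ := by
  ext
  · show (0 : ℚ) = -(((q : ℚ) / (p : ℚ)) ^ (-1 : ℤ) * 0)
    simp
  · rfl

theorem flip_S1 (p q : ℕ+) : ∀ s, s ∈ S1 p q ↔ flip p q s ∈ S1 q p := by
  intro s
  have h1 : s = a ↔ flip p q s = a := by
    rw [← flip_a p q, (flip p q).injective.eq_iff]
  have h2 : s = a⁻¹ ↔ flip p q s = a⁻¹ := by
    rw [← flip_a p q, ← map_inv, (flip p q).injective.eq_iff]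
  have h3 : s = t ↔ flip p q s = t⁻¹ := by
    rw [← flip_t p q, (flip p q).injective.eq_iff]
  have h4 : s = t⁻¹ ↔ flip p q s = t := by
    have : flip p q t⁻¹ = t := by rw [map_inv, flip_t, inv_inv]
    rw [← this, (flip p q).injective.eq_iff]
  simp only [S1, Set.mem_insert_iff, Set.mem_singleton_iff]
  rw [h1, h2, h3, h4]
  tauto

/-- `G_{1,m}` has unbounded retreat depth for the walk or switch generating set. -/
theorem unbounded_right {m : ℕ+} (hm : 2 ≤ (m : ℕ)) : ¬ BoundedRetreatDepth (S1 1 m) := by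
  intro h
  exact unbounded_left hm (bounded_transport (flip m 1) (S1 m 1) (S1 1 m) (flip_S1 m 1) h)

end Pool.Agent.H73.Gpq
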