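import Pool.Agent.H73.GpqDefs
import Pool.Agent.H73.GpqDigits

set_option autoImplicit false

/-! Lower bound for word lengths (problem MP_6c6968_al). -/

namespace Pool.Agent.H73.Gpq

open Finset

/-- `(x, k)` has a representation of cost at most `ℓ`. -/
def Rep (w x : ℚ) (k : ℤ) (ℓ : ℤ) : Prop :=
  ∃ (L R : ℕ) (c : ℤ → ℤ), -(L : ℤ) ≤ k ∧ k ≤ R ∧
    x = ∑ i ∈ Icc (-(L : ℤ)) R, (c i : ℚ) * w ^ i ∧
    (∑ i ∈ Icc (-(L : ℤ)) R, |c i|) + 2 * (L + R) ≤ ℓ + |k|

theorem Rep.one (w : ℚ) : Rep w 0 0 0 :=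
  ⟨0, 0, fun _ => 0, by simp, by simp, by simp, by simp⟩

theorem Rep.add {w x : ℚ} {k ℓ : ℤ} (h : Rep w x k ℓ) (e : ℤ) (he : |e| ≤ 1) :
    Rep w (x + w ^ k * e) k (ℓ + 1) := by
  obtain ⟨L, R, c, h1, h2, h3, h4⟩ := h
  refine ⟨L, R, fun i => c i + if i = k then e else 0, h1, h2, ?_, ?_⟩
  · rw [h3]
    have hk : k ∈ Icc (-(L : ℤ)) R := mem_Icc.2 ⟨h1, h2⟩
    have e1 : ∑ i ∈ Icc (-(L : ℤ)) R, (((c i + if i = k then e else 0 : ℤ)) : ℚ) * w ^ i =
        ∑ i ∈ Icc (-(L : ℤ)) R, (c i : ℚ) * w ^ i +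
          ∑ i ∈ Icc (-(L : ℤ)) R, if i = k then (w ^ k * e) else 0 := by
      rw [← sum_add_distrib]
      refine sum_congr rfl fun i _ => ?_
      split_ifs with hi
      · subst hi
        push_cast
        ring
      · push_cast
        ring
    rw [e1, sum_ite_eq' (Icc (-(L : ℤ)) R) k, if_pos hk]
  · have e1 : ∑ i ∈ Icc (-(L : ℤ)) R, |c i + if i = k then e else 0| ≤
        ∑ i ∈ Icc (-(L : ℤ)) R, |c i| + ∑ i ∈ Icc (-(L : ℤ)) R, if i = k then |e| else 0 := by
      rw [← sum_add_distrib]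
      refine sum_le_sum fun i _ => ?_
      split_ifs with hi
      · exact abs_add_le _ _
      · simp
    have e2 : (∑ i ∈ Icc (-(L : ℤ)) R, if i = k then |e| else 0) ≤ 1 := by
      rw [sum_ite_eq']
      split_ifs
      · exact he
      · norm_num
    linarith

theorem Rep.up {w x : ℚ} {k ℓ : ℤ} (h : Rep w x k ℓ) : Rep w x (k + 1) (ℓ + 1) := by
  obtain ⟨L, R, c, h1, h2, h3, h4⟩ := h
  by_cases hk : k + 1 ≤ R
  · refine ⟨L, R, c, by omega, hk, h3, ?_⟩
    have : |k| ≤ |k + 1| + 1 := by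
      have := abs_add_le (k + 1) (-1)
      simpa using this
    linarith
  · have hkR : k = R := by omega
    refine ⟨L, R + 1, fun i => if i = (R : ℤ) + 1 then 0 else c i, by omega, by push_cast; omega,
      ?_, ?_⟩
    · have e1 : Icc (-(L : ℤ)) ((R + 1 : ℕ) : ℤ) = insert ((R : ℤ) + 1) (Icc (-(L : ℤ)) R) := by
        ext i
        simp only [mem_Icc, mem_insert]
        push_cast
        omega
      rw [e1, sum_insert (by simp)]
      beta_reduce
      rw [if_pos rfl, h3]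
      rw [Int.cast_zero, zero_mul, zero_add]
      refine sum_congr rfl fun i hi => ?_
      rw [if_neg]
      have := (mem_Icc.1 hi).2
      omega
    · have e1 : Icc (-(L : ℤ)) ((R + 1 : ℕ) : ℤ) = insert ((R : ℤ) + 1) (Icc (-(L : ℤ)) R) := by
        ext i
        simp only [mem_Icc, mem_insert]
        push_cast
        omega
      rw [e1, sum_insert (by simp)]
      beta_reduce
      rw [if_pos rfl, abs_zero, zero_add]
      have e2 : ∑ i ∈ Icc (-(L : ℤ)) R, |if i = (R : ℤ) + 1 then 0 else c i| =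
          ∑ i ∈ Icc (-(L : ℤ)) R, |c i| := by
        refine sum_congr rfl fun i hi => ?_
        rw [if_neg]
        have := (mem_Icc.1 hi).2
        omega
      rw [e2]
      have h5 : |k| = k := abs_of_nonneg (by omega)
      have h6 : |k + 1| = k + 1 := abs_of_nonneg (by omega)
      push_cast
      linarith

theorem Rep.down {w x : ℚ} {k ℓ : ℤ} (h : Rep w x k ℓ) : Rep w x (k - 1) (ℓ + 1) := by
  obtain ⟨L, R, c, h1, h2, h3, h4⟩ := h
  by_cases hk : -(L : ℤ) ≤ k - 1
  · refine ⟨L, R, c, hk, by omega, h3, ?_⟩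
    have : |k| ≤ |k - 1| + 1 := by
      have := abs_add_le (k - 1) 1
      simpa using this
    linarith
  · have hkR : k = -(L : ℤ) := by omega
    refine ⟨L + 1, R, fun i => if i = -((L : ℤ) + 1) then 0 else c i, by push_cast; omega,
      by omega, ?_, ?_⟩
    · have e1 : Icc (-((L + 1 : ℕ) : ℤ)) (R : ℤ) = insert (-((L : ℤ) + 1)) (Icc (-(L : ℤ)) R) := by
        ext i
        simp only [mem_Icc, mem_insert]
        push_cast
        omega
      rw [e1, sum_insert (by simp)]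
      beta_reduce
      rw [if_pos rfl, h3]
      rw [Int.cast_zero, zero_mul, zero_add]
      refine sum_congr rfl fun i hi => ?_
      rw [if_neg]
      have := (mem_Icc.1 hi).1
      omega
    · have e1 : Icc (-((L + 1 : ℕ) : ℤ)) (R : ℤ) = insert (-((L : ℤ) + 1)) (Icc (-(L : ℤ)) R) := by
        ext i
        simp only [mem_Icc, mem_insert]
        push_cast
        omega
      rw [e1, sum_insert (by simp)]
      beta_reduce
      rw [if_pos rfl, abs_zero, zero_add]
      have e2 : ∑ i ∈ Icc (-(L : ℤ)) R, |if i = -((L : ℤ) + 1) then 0 else c i| =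
          ∑ i ∈ Icc (-(L : ℤ)) R, |c i| := by
        refine sum_congr rfl fun i hi => ?_
        rw [if_neg]
        have := (mem_Icc.1 hi).1
        omega
      rw [e2]
      have h5 : |k| = -k := abs_of_nonpos (by omega)
      have h6 : |k - 1| = -(k - 1) := abs_of_nonpos (by omega)
      push_cast
      linarith

variable {p q : ℕ+}

theorem rep_step (g h : Gpq p q) (ℓ : ℤ) (hg : Rep ((p : ℚ) / q) g.x g.k ℓ)
    (hadj : (SimpleGraph.mulCayley (S1 p q)).Adj g h) : Rep ((p : ℚ) / q) h.x h.k (ℓ + 1) := by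
  rw [SimpleGraph.mulCayley_adj'] at hadj
  obtain ⟨_, s, hs, hgs⟩ := hadj
  have key : h = g * a ∨ h = g * a⁻¹ ∨ h = g * t ∨ h = g * t⁻¹ := by
    have hs' : s = a ∨ s = a⁻¹ ∨ s = t ∨ s = t⁻¹ := by
      simpa [S1] using hs
    rcases hgs with hgs | hgs
    · rcases hs' with rfl | rfl | rfl | rfl
      · exact Or.inl hgs.symm
      · exact Or.inr (Or.inl hgs.symm)
      · exact Or.inr (Or.inr (Or.inl hgs.symm))
      · exact Or.inr (Or.inr (Or.inr hgs.symm))
    · have hh : h = g * s⁻¹ := by rw [hgs]; group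
      rcases hs' with rfl | rfl | rfl | rfl
      · exact Or.inr (Or.inl hh)
      · rw [inv_inv] at hh
        exact Or.inl hh
      · exact Or.inr (Or.inr (Or.inr hh))
      · rw [inv_inv] at hh
        exact Or.inr (Or.inr (Or.inl hh))
  rcases key with rfl | rfl | rfl | rfl
  · have := hg.add 1 (by norm_num)
    simpa [a] using this
  · have := hg.add (-1) (by norm_num)
    simpa [a] using this
  · have := hg.up
    simpa [t] using this
  · have := hg.down
    simpa [t, sub_eq_add_neg] using this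

theorem rep_walk (g h : Gpq p q) (ℓ : ℤ) (hg : Rep ((p : ℚ) / q) g.x g.k ℓ)
    (W : (SimpleGraph.mulCayley (S1 p q)).Walk g h) :
    Rep ((p : ℚ) / q) h.x h.k (ℓ + W.length) := by
  induction W generalizing ℓ with
  | nil => simpa using hg
  | cons hadj W ih =>
    have := ih (ℓ + 1) (rep_step _ _ ℓ hg hadj)
    rw [SimpleGraph.Walk.length_cons]
    push_cast
    convert this using 1
    ring

theorem rep_len (g : Gpq p q) (hr : (SimpleGraph.mulCayley (S1 p q)).Reachable 1 g) :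
    Rep ((p : ℚ) / q) g.x g.k (len (S1 p q) g) := by
  obtain ⟨W, hW⟩ := hr.exists_walk_length_eq_dist
  have := rep_walk 1 g 0 (Rep.one _) W
  rw [hW, zero_add] at this
  exact this

/-- Reindexing. -/
theorem sum_Icc_eq_range (L R : ℕ) {β : Type} [AddCommMonoid β] (f : ℤ → β) :
    ∑ i ∈ Icc (-(L : ℤ)) R, f i = ∑ j ∈ range (L + R + 1), f ((j : ℤ) - L) := by
  symm
  refine sum_nbij' (fun j : ℕ => (j : ℤ) - L) (fun i : ℤ => (i + L).toNat) ?_ ?_ ?_ ?_ ?_
  · intro j hj
    rw [mem_range] at hj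
    rw [mem_Icc]
    omega
  · intro i hi
    rw [mem_Icc] at hi
    rw [mem_range]
    omega
  · intro j hj
    show ((j : ℤ) - L + L).toNat = j
    omega
  · intro i hi
    rw [mem_Icc] at hi
    show (((i + L).toNat : ℕ) : ℤ) - L = i
    omega
  · intro j hj
    rfl

/-- The lower bound in integer form. -/
theorem rep_lower (m : ℕ) (hm : 2 ≤ m) (r0 r1 : ℤ) (h01 : r0 + r1 = (m : ℤ) - 1) (hr : r1 ≤ r0)
    (hr' : r0 ≤ r1 + 1) (n : ℕ) (x : ℚ)
    (hx : x * (m : ℚ) ^ n = (((m : ℤ) * NN m r0 r1 n + 1 : ℤ) : ℚ)) (ℓ : ℤ)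
    (h : Rep (m : ℚ) x 0 ℓ) : ((m : ℤ) + 3) * n - 6 ≤ ℓ := by
  obtain ⟨L, R, c, h1, h2, h3, h4⟩ := h
  have hm0 : (m : ℚ) ≠ 0 := by
    have : m ≠ 0 := by omega
    exact_mod_cast this
  let d : ℕ → ℤ := fun j => c ((j : ℤ) - L)
  have hval : x * (m : ℚ) ^ L = ((val m (L + R) d : ℤ) : ℚ) := by
    rw [h3, sum_Icc_eq_range, sum_mul]
    unfold val
    push_cast
    refine sum_congr rfl fun j _ => ?_
    rw [zpow_sub₀ hm0, zpow_natCast, zpow_natCast]
    field_simp
    rfl
  have hcst : cst (L + R) d ≤ ℓ := by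
    unfold cst
    rw [sum_Icc_eq_range] at h4
    rw [abs_zero, add_zero] at h4
    push_cast
    exact h4
  -- the integer identity `m ^ n * val = m ^ L * N`
  have hint : (m : ℤ) ^ n * val m (L + R) d = (m : ℤ) ^ L * ((m : ℤ) * NN m r0 r1 n + 1) := by
    have : ((m : ℚ) ^ n * ((val m (L + R) d : ℤ) : ℚ)) =
        (m : ℚ) ^ L * (((m : ℤ) * NN m r0 r1 n + 1 : ℤ) : ℚ) := by
      rw [← hval, ← hx]
      ring
    exact_mod_cast this
  have hmz : (2 : ℤ) ≤ m := by exact_mod_cast hm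
  have hLn : n ≤ L := by
    by_contra hcon
    push Not at hcon
    obtain ⟨s, hs⟩ : ∃ s, n = L + (s + 1) := ⟨n - L - 1, by omega⟩
    rw [hs, pow_add, mul_assoc] at hint
    have hmL : (m : ℤ) ^ L ≠ 0 := by positivity
    have h5 := mul_left_cancel₀ hmL hint
    rw [← hs] at h5
    have h6 : (m : ℤ) ∣ 1 := by
      have h7 : (m : ℤ) ∣ (m : ℤ) * NN m r0 r1 n + 1 := by
        rw [← h5, pow_succ]
        exact Dvd.intro_left _ (by ring : (m : ℤ) ^ s * val m (L + R) d * m = _)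
      exact (Int.dvd_add_right (Dvd.intro _ rfl)).1 h7
    have h8 := Int.le_of_dvd one_pos h6
    linarith
  obtain ⟨z, hz⟩ : ∃ z, L = n + z := ⟨L - n, by omega⟩
  have hval2 : val m (L + R) d = (m : ℤ) ^ z * ((m : ℤ) * NN m r0 r1 n + 1) + 0 := by
    have hmn : (m : ℤ) ^ n ≠ 0 := by positivity
    apply mul_left_cancel₀ hmn
    rw [hint, hz, pow_add]
    ring
  have h9 := lower_final m r0 r1 hmz h01 hr hr' z n (L + R) d 0 (by omega) hval2
  rw [abs_zero, add_zero] at h9
  have hz0 : (0 : ℤ) ≤ z := by positivity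
  linarith

end Pool.Agent.H73.Gpq
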