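import Pool.Agent.H73.GpqUpper

set_option autoImplicit false

/-! Unbounded retreat depth of `G_{m,1}` (problem MP_6c6968_al). -/

namespace Pool.Agent.H73.Gpq

variable {m : ℕ+}

theorem reach_E (K M : ℕ) (hK : 1 ≤ K) (N : ℤ) (h1 : -((K : ℤ) * (m : ℤ) ^ M) ≤ N)
    (h2 : N ≤ (K : ℤ) * (m : ℤ) ^ M) :
    ∃ n : ℕ, Reach (S1 m 1) (E m N M) n ∧ 2 * n ≤ ((m : ℕ) + 1) * M + 2 * K + 1 := by
  have hmpos : (0 : ℤ) < (m : ℤ) := by
    have := m.pos
    exact_mod_cast this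
  have hpow : (1 : ℤ) ≤ (m : ℤ) ^ M := by
    have : (0 : ℤ) < (m : ℤ) ^ M := by positivity
    linarith
  have hKp : (1 : ℤ) ≤ (K : ℤ) * (m : ℤ) ^ M := by
    have : (1 : ℤ) ≤ K := by exact_mod_cast hK
    nlinarith
  by_cases h3 : N + 1 ≤ (K : ℤ) * (m : ℤ) ^ M
  · obtain ⟨u, v, hu, hv, huv⟩ := pair (m := m) K M N h1 h3
    have hv' : Reach (S1 m 1) (E m N M) (1 + v) := by
      have e1 : E m N M = a⁻¹ * E m (N + 1) M := by
        ext
        · simp [E, a]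
        · simp [E, a]
      rw [e1]
      exact (Reach.gen ai_mem).mul hv
    rcases le_total u (1 + v) with h | h
    · refine ⟨u, hu, ?_⟩
      have : (u + v + M : ℤ) ≤ (m : ℕ) * M + 2 * K + 2 * M := by exact_mod_cast huv
      have h' : (u : ℤ) ≤ 1 + v := by exact_mod_cast h
      have : (2 * u : ℤ) ≤ ((m : ℕ) + 1) * M + 2 * K + 1 := by linarith
      exact_mod_cast this
    · refine ⟨1 + v, hv', ?_⟩
      have : (u + v + M : ℤ) ≤ (m : ℕ) * M + 2 * K + 2 * M := by exact_mod_cast huv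
      have h' : (1 + v : ℤ) ≤ u := by exact_mod_cast h
      have : (2 * (1 + v) : ℤ) ≤ ((m : ℕ) + 1) * M + 2 * K + 1 := by linarith
      exact_mod_cast this
  · obtain ⟨u, v, hu, hv, huv⟩ := pair (m := m) K M (N - 1) (by linarith) (by linarith)
    rw [sub_add_cancel] at hv
    have hu' : Reach (S1 m 1) (E m N M) (1 + u) := by
      have e1 : E m N M = a * E m (N - 1) M := by
        ext
        · simp [E, a]
        · simp [E, a]
      rw [e1]
      exact (Reach.gen a_mem).mul hu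
    rcases le_total v (1 + u) with h | h
    · refine ⟨v, hv, ?_⟩
      have : (u + v + M : ℤ) ≤ (m : ℕ) * M + 2 * K + 2 * M := by exact_mod_cast huv
      have h' : (v : ℤ) ≤ 1 + u := by exact_mod_cast h
      have : (2 * v : ℤ) ≤ ((m : ℕ) + 1) * M + 2 * K + 1 := by linarith
      exact_mod_cast this
    · refine ⟨1 + u, hu', ?_⟩
      have : (u + v + M : ℤ) ≤ (m : ℕ) * M + 2 * K + 2 * M := by exact_mod_cast huv
      have h' : (1 + u : ℤ) ≤ v := by exact_mod_cast h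
      have : (2 * (1 + u) : ℤ) ≤ ((m : ℕ) + 1) * M + 2 * K + 1 := by linarith
      exact_mod_cast this

/-- The finite region. -/
def Om (m : ℕ+) (n : ℕ) : Set (Gpq m 1) :=
  {h | (∃ N : ℤ, h.x * (m : ℚ) ^ n = N) ∧ |h.x| ≤ (m : ℚ) * (m : ℚ) ^ n ∧ |h.k| ≤ n}

theorem Om_finite (n : ℕ) : (Om m n).Finite := by
  have hm0 : (0 : ℚ) < (m : ℚ) := by
    have := m.pos
    exact_mod_cast this
  have hpow : (0 : ℚ) < (m : ℚ) ^ n := by positivity
  let B : ℤ := (m : ℤ) * (m : ℤ) ^ n * (m : ℤ) ^ n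
  have hfin : ((Set.Icc (-B) B) ×ˢ (Set.Icc (-(n : ℤ)) n)).Finite :=
    (Set.finite_Icc _ _).prod (Set.finite_Icc _ _)
  refine Set.Finite.of_finite_image (f := fun h : Gpq m 1 => (⌊h.x * (m : ℚ) ^ n⌋, h.k))
    (hfin.subset ?_) ?_
  · rintro _ ⟨h, ⟨⟨N, hN⟩, hx, hk⟩, rfl⟩
    refine Set.mem_prod.2 ⟨?_, abs_le.1 hk⟩
    show ⌊h.x * (m : ℚ) ^ n⌋ ∈ Set.Icc (-B) B
    rw [hN, Int.floor_intCast]
    have h1 : |(N : ℚ)| ≤ (B : ℚ) := by
      rw [← hN, abs_mul, abs_of_pos hpow]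
      push_cast [B]
      exact mul_le_mul_of_nonneg_right hx hpow.le
    have h2 : |N| ≤ B := by exact_mod_cast h1
    exact abs_le.1 h2
  · rintro h ⟨⟨N, hN⟩, -, -⟩ h' ⟨⟨N', hN'⟩, -, -⟩ he
    have e1 : ⌊h.x * (m : ℚ) ^ n⌋ = ⌊h'.x * (m : ℚ) ^ n⌋ := congrArg Prod.fst he
    have e2 : h.k = h'.k := congrArg Prod.snd he
    rw [hN, hN', Int.floor_intCast, Int.floor_intCast] at e1
    ext
    · have : h.x * (m : ℚ) ^ n = h'.x * (m : ℚ) ^ n := by rw [hN, hN', e1]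
      exact mul_right_cancel₀ hpow.ne' this
    · exact e2

/-- The bound for the inner boundary. -/
def Bd (m n : ℕ) : ℕ := max ((2 * m + 4) * n) ((m + 7) * n) + 2 * m + 3

theorem len_top (n : ℕ) (h : Gpq m 1) (N : ℤ) (hN : h.x * (m : ℚ) ^ n = N)
    (hx : |h.x| ≤ (m : ℚ) * (m : ℚ) ^ n) (hk : h.k = n) : 2 * len (S1 m 1) h ≤ Bd m n := by
  have hm0 : (0 : ℚ) < (m : ℚ) := by
    have := m.pos
    exact_mod_cast this
  have hpow : (0 : ℚ) < (m : ℚ) ^ n := by positivity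
  have hNb : |N| ≤ (m : ℤ) * (m : ℤ) ^ (2 * n) := by
    have h1 : |(N : ℚ)| ≤ (m : ℚ) * (m : ℚ) ^ (2 * n) := by
      rw [← hN, abs_mul, abs_of_pos hpow, show 2 * n = n + n by ring, pow_add, ← mul_assoc]
      exact mul_le_mul_of_nonneg_right hx hpow.le
    exact_mod_cast h1
  obtain ⟨u, hu, hu2⟩ := reach_E (m := m) (m : ℕ) (2 * n) m.pos N (by
    have := (abs_le.1 hNb).1
    simpa using this) (by simpa using (abs_le.1 hNb).2)
  have e1 : h = t ^ (-(n : ℤ)) * E m N ((2 * n : ℕ) : ℤ) := by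
    have h1 := t_zpow (p := m) (q := 1) (-(n : ℤ))
    ext
    · rw [mul_x, h1.1, h1.2, w_eq, zero_add, zpow_neg, zpow_natCast]
      show h.x = ((m : ℚ) ^ n)⁻¹ * (N : ℚ)
      rw [← hN]
      field_simp
    · rw [mul_k, h1.2, hk]
      show (n : ℤ) = -n + ((2 * n : ℕ) : ℤ)
      push_cast
      ring
  have h2 : Reach (S1 m 1) h (n + u) := by
    rw [e1]
    have := (reach_t_zpow (p := m) (q := 1) (-(n : ℤ))).mul hu
    simpa using this
  have h3 := h2.len_le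
  have h4 : (2 * (m : ℕ) + 4) * n ≤ max ((2 * (m : ℕ) + 4) * n) (((m : ℕ) + 7) * n) :=
    le_max_left _ _
  unfold Bd
  have h5 : 2 * (n + u) ≤ (2 * (m : ℕ) + 4) * n + 2 * m + 1 := by
    have : 2 * (n + u) = 2 * n + 2 * u := by ring
    rw [this]
    nlinarith
  omega

theorem len_bot (n : ℕ) (h : Gpq m 1) (N : ℤ) (hN : h.x * (m : ℚ) ^ n = N)
    (hx : |h.x| ≤ (m : ℚ) * (m : ℚ) ^ n) (hk : h.k = -(n : ℤ)) :
    2 * len (S1 m 1) h ≤ Bd m n := by
  have hm0 : (0 : ℚ) < (m : ℚ) := by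
    have := m.pos
    exact_mod_cast this
  have hpow : (0 : ℚ) < (m : ℚ) ^ n := by positivity
  have hNb : |N| ≤ (m : ℤ) * (m : ℤ) ^ (2 * n) := by
    have h1 : |(N : ℚ)| ≤ (m : ℚ) * (m : ℚ) ^ (2 * n) := by
      rw [← hN, abs_mul, abs_of_pos hpow, show 2 * n = n + n by ring, pow_add, ← mul_assoc]
      exact mul_le_mul_of_nonneg_right hx hpow.le
    exact_mod_cast h1
  obtain ⟨u, hu, hu2⟩ := reach_E (m := m) (m : ℕ) (2 * n) m.pos (-N) (by
    have := (abs_le.1 hNb).2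
    have e : (((m : ℕ) : ℤ) * (m : ℤ) ^ (2 * n)) = (m : ℤ) * (m : ℤ) ^ (2 * n) := by simp
    rw [e]
    linarith) (by
    have := (abs_le.1 hNb).1
    have e : (((m : ℕ) : ℤ) * (m : ℤ) ^ (2 * n)) = (m : ℤ) * (m : ℤ) ^ (2 * n) := by simp
    rw [e]
    linarith)
  have e1 : h⁻¹ = E m (-N) ((2 * n : ℕ) : ℤ) * t ^ (-(n : ℤ)) := by
    have h1 := t_zpow (p := m) (q := 1) (-(n : ℤ))
    ext
    · rw [mul_x, h1.1, inv_x, w_eq, hk, neg_neg, zpow_natCast, mul_zero, add_zero]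
      show -((m : ℚ) ^ n * h.x) = ((-N : ℤ) : ℚ)
      push_cast
      rw [← hN]
      ring
    · rw [mul_k, h1.2, inv_k, hk]
      show - -(n : ℤ) = ((2 * n : ℕ) : ℤ) + -n
      push_cast
      ring
  have h2 : Reach (S1 m 1) h⁻¹ (u + n) := by
    rw [e1]
    have := hu.mul (reach_t_zpow (p := m) (q := 1) (-(n : ℤ)))
    simpa using this
  have h2' : Reach (S1 m 1) h (u + n) := by
    have := h2.inv S1_inv
    rwa [inv_inv] at this
  have h3 := h2'.len_le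
  have h4 : (2 * (m : ℕ) + 4) * n ≤ max ((2 * (m : ℕ) + 4) * n) (((m : ℕ) + 7) * n) :=
    le_max_left _ _
  unfold Bd
  have h5 : 2 * (u + n) ≤ (2 * (m : ℕ) + 4) * n + 2 * m + 1 := by
    have : 2 * (u + n) = 2 * n + 2 * u := by ring
    rw [this]
    nlinarith
  omega

/-- Elements near the threshold. -/
theorem len_side (n : ℕ) (h : Gpq m 1) (Z σ : ℤ) (hσ : σ = 1 ∨ σ = -1)
    (hk1 : -(n : ℤ) ≤ h.k) (hk2 : h.k ≤ n)
    (hx : h.x * (m : ℚ) ^ n = σ * ((m : ℚ) * (m : ℚ) ^ (2 * n) - Z))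
    (hZ0 : 0 ≤ Z) (hZ1 : (Z : ℚ) ≤ (m : ℚ) ^ ((n : ℤ) + h.k)) :
    2 * len (S1 m 1) h ≤ Bd m n := by
  have hm0 : (0 : ℚ) < (m : ℚ) := by
    have := m.pos
    exact_mod_cast this
  have hpow : (0 : ℚ) < (m : ℚ) ^ n := by positivity
  obtain ⟨M, hM⟩ : ∃ M : ℕ, (n : ℤ) + h.k = M := ⟨((n : ℤ) + h.k).toNat, by omega⟩
  rw [hM, zpow_natCast] at hZ1
  have hZ1' : Z ≤ (m : ℤ) ^ M := by exact_mod_cast hZ1
  have hpM : (0 : ℤ) ≤ (m : ℤ) ^ M := by positivity
  obtain ⟨u, hu, hu2⟩ := reach_E (m := m) 1 M (le_refl _) (-σ * Z) (by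
      rcases hσ with rfl | rfl
      · push_cast; linarith
      · push_cast; linarith) (by
      rcases hσ with rfl | rfl
      · push_cast; linarith
      · push_cast; linarith)
  have hxx : h.x = σ * ((m : ℚ) * (m : ℚ) ^ n) - σ * Z * ((m : ℚ) ^ n)⁻¹ := by
    have : h.x = (σ * ((m : ℚ) * (m : ℚ) ^ (2 * n) - Z)) / (m : ℚ) ^ n := by
      rw [← hx]
      field_simp
    rw [this, show 2 * n = n + n by ring, pow_add]
    field_simp
  have hsig : (σ * (m : ℤ)).natAbs = (m : ℕ) := by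
    rcases hσ with rfl | rfl
    · simp
    · simp
  rcases le_or_gt 0 h.k with hk | hk
  · -- `k ≥ 0`
    obtain ⟨j, hj⟩ : ∃ j : ℕ, (n : ℤ) - h.k = j := ⟨((n : ℤ) - h.k).toNat, by omega⟩
    have e1 : h = t ^ (-(n : ℤ)) * E m (-σ * Z) M * t ^ (j : ℤ) * a ^ (σ * (m : ℤ)) *
        t ^ (-(j : ℤ)) := by
      have h1 := t_zpow (p := m) (q := 1) (-(n : ℤ))
      have h2 := t_zpow (p := m) (q := 1) (j : ℤ)
      have h3 := t_zpow (p := m) (q := 1) (-(j : ℤ))
      have h4 := a_zpow (p := m) (q := 1) (σ * (m : ℤ))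
      ext
      · simp only [mul_x, mul_k, h1.1, h1.2, h2.1, h2.2, h3.1, h4.1, w_eq, E]
        rw [show -(n : ℤ) + (M : ℤ) + (j : ℤ) = n by omega, zpow_neg, zpow_natCast, hxx]
        push_cast
        ring
      · simp only [mul_k, h1.2, h2.2, h3.2, h4.2, E]
        omega
    have h2 : Reach (S1 m 1) h (n + u + j + m + j) := by
      rw [e1]
      have := ((((reach_t_zpow (p := m) (q := 1) (-(n : ℤ))).mul hu).mul
        (reach_t_zpow (p := m) (q := 1) (j : ℤ))).mul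
        (reach_a_zpow (p := m) (q := 1) (σ * (m : ℤ)))).mul
        (reach_t_zpow (p := m) (q := 1) (-(j : ℤ)))
      rw [hsig] at this
      simpa using this
    have h3 := h2.len_le
    unfold Bd
    have hMj : M + j = 2 * n := by omega
    have h5 : 2 * (n + u + j + m + j) ≤
        max ((2 * (m : ℕ) + 4) * n) (((m : ℕ) + 7) * n) + 2 * m + 3 := by
      rcases le_or_gt 3 (m : ℕ) with h3m | h3m
      · refine le_trans ?_ (Nat.add_le_add_right (Nat.add_le_add_right (le_max_left _ _) _) _)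
        obtain ⟨s, hs⟩ : ∃ s, (m : ℕ) = 3 + s := ⟨(m : ℕ) - 3, by omega⟩
        rw [hs] at hu2 ⊢
        have hMn : M ≤ 2 * n := by omega
        have hs2 : s * M ≤ s * (2 * n) := Nat.mul_le_mul_left s hMn
        nlinarith
      · refine le_trans ?_ (Nat.add_le_add_right (Nat.add_le_add_right (le_max_right _ _) _) _)
        have hMn : n ≤ M := by omega
        have hm3 : (m : ℕ) ≤ 2 := by omega
        have hmM : ((m : ℕ) + 1) * M ≤ 3 * M := Nat.mul_le_mul_right M (by omega)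
        have hm1 := m.pos
        have hcases : (m : ℕ) = 1 ∨ (m : ℕ) = 2 := by omega
        rcases hcases with h1 | h1 <;> rw [h1] at hu2 ⊢ <;> omega
    omega
  · -- `k < 0`
    have e1 : h = t ^ (n : ℤ) * a ^ (σ * (m : ℤ)) * t ^ (-(2 * n : ℤ)) * E m (-σ * Z) M := by
      have h1 := t_zpow (p := m) (q := 1) (n : ℤ)
      have h2 := t_zpow (p := m) (q := 1) (-(2 * n : ℤ))
      have h4 := a_zpow (p := m) (q := 1) (σ * (m : ℤ))
      ext
      · simp only [mul_x, mul_k, h1.1, h1.2, h2.1, h2.2, h4.1, h4.2, w_eq, E]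
        rw [show (n : ℤ) + 0 + -(2 * (n : ℤ)) = -(n : ℤ) by ring, zpow_neg, zpow_natCast, hxx]
        push_cast
        ring
      · simp only [mul_k, h1.2, h2.2, h4.2, E]
        omega
    have h2 : Reach (S1 m 1) h (n + m + 2 * n + u) := by
      rw [e1]
      have := (((reach_t_zpow (p := m) (q := 1) (n : ℤ)).mul
        (reach_a_zpow (p := m) (q := 1) (σ * (m : ℤ)))).mul
        (reach_t_zpow (p := m) (q := 1) (-(2 * n : ℤ)))).mul hu
      rw [hsig] at this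
      have e : (-(2 * (n : ℤ))).natAbs = 2 * n := by omega
      rw [e] at this
      simpa using this
    have h3 := h2.len_le
    unfold Bd
    have hMn : M ≤ n := by omega
    have h5 : 2 * (n + m + 2 * n + u) ≤
        max ((2 * (m : ℕ) + 4) * n) (((m : ℕ) + 7) * n) + 2 * m + 3 := by
      refine le_trans ?_ (Nat.add_le_add_right (Nat.add_le_add_right (le_max_right _ _) _) _)
      have : ((m : ℕ) + 1) * M ≤ ((m : ℕ) + 1) * n := Nat.mul_le_mul_left _ hMn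
      nlinarith
    omega

end Pool.Agent.H73.Gpq
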