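import Pool.Agent.H73.GpqLower

set_option autoImplicit false

/-! Upper bounds for word lengths (problem MP_6c6968_al). -/

namespace Pool.Agent.H73.Gpq

section Reach

universe u

variable {H : Type u} [Group H]

/-- `g` is a product of at most `n` elements of `S`. -/
def Reach (S : Set H) (g : H) (n : ℕ) : Prop :=
  ∃ l : List H, (∀ s ∈ l, s ∈ S) ∧ l.length ≤ n ∧ l.prod = g

theorem Reach.one (S : Set H) : Reach S 1 0 := ⟨[], by simp, by simp, by simp⟩

theorem Reach.gen {S : Set H} {s : H} (hs : s ∈ S) : Reach S s 1 := ⟨[s], by simpa, by simp, by simp⟩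

theorem Reach.mono {S : Set H} {g : H} {m n : ℕ} (h : Reach S g m) (hmn : m ≤ n) : Reach S g n := by
  obtain ⟨l, h1, h2, h3⟩ := h
  exact ⟨l, h1, h2.trans hmn, h3⟩

theorem Reach.mul {S : Set H} {g h : H} {m n : ℕ} (hg : Reach S g m) (hh : Reach S h n) :
    Reach S (g * h) (m + n) := by
  obtain ⟨l, h1, h2, h3⟩ := hg
  obtain ⟨l', h1', h2', h3'⟩ := hh
  refine ⟨l ++ l', ?_, ?_, ?_⟩
  · intro s hs
    rcases List.mem_append.1 hs with hs | hs
    · exact h1 s hs
    · exact h1' s hs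
  · rw [List.length_append]
    omega
  · rw [List.prod_append, h3, h3']

theorem Reach.pow {S : Set H} {s : H} (hs : s ∈ S) (n : ℕ) : Reach S (s ^ n) n := by
  induction n with
  | zero => simpa using Reach.one S
  | succ n ih =>
    rw [pow_succ]
    exact ih.mul (Reach.gen hs)

theorem Reach.inv {S : Set H} (hS : ∀ s ∈ S, s⁻¹ ∈ S) {g : H} {n : ℕ} (hg : Reach S g n) :
    Reach S g⁻¹ n := by
  obtain ⟨l, h1, h2, h3⟩ := hg
  refine ⟨(l.map (fun s => s⁻¹)).reverse, ?_, ?_, ?_⟩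
  · intro s hs
    rw [List.mem_reverse, List.mem_map] at hs
    obtain ⟨u, hu, rfl⟩ := hs
    exact hS u (h1 u hu)
  · simpa using h2
  · rw [← h3, List.prod_inv_reverse]

theorem walk_of_list (S : Set H) (l : List H) (hl : ∀ s ∈ l, s ∈ S) (g : H) :
    ∃ W : (SimpleGraph.mulCayley S).Walk g (g * l.prod), W.length ≤ l.length := by
  induction l generalizing g with
  | nil =>
    rw [List.prod_nil, mul_one]
    exact ⟨SimpleGraph.Walk.nil, le_refl _⟩
  | cons s l ih =>
    obtain ⟨W, hW⟩ := ih (fun u hu => hl u (by simp [hu])) (g * s)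
    rw [List.prod_cons, ← mul_assoc]
    by_cases hgs : g = g * s
    · have hs1 : s = 1 := by
        have : g * 1 = g * s := by rw [mul_one]; exact hgs
        exact (mul_left_cancel this).symm
      subst hs1
      rw [mul_one] at W ⊢
      obtain ⟨W', hW'⟩ := ih (fun u hu => hl u (by simp [hu])) g
      exact ⟨W', hW'.trans (by simp)⟩
    · have hadj : (SimpleGraph.mulCayley S).Adj g (g * s) := by
        rw [SimpleGraph.mulCayley_adj']
        exact ⟨hgs, s, hl s (by simp), Or.inl rfl⟩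
      refine ⟨SimpleGraph.Walk.cons hadj W, ?_⟩
      rw [SimpleGraph.Walk.length_cons, List.length_cons]
      omega

theorem Reach.reachable {S : Set H} {g : H} {n : ℕ} (hg : Reach S g n) :
    (SimpleGraph.mulCayley S).Reachable 1 g := by
  obtain ⟨l, h1, _, h3⟩ := hg
  obtain ⟨W, _⟩ := walk_of_list S l h1 1
  rw [one_mul, h3] at W
  exact ⟨W⟩

theorem Reach.len_le {S : Set H} {g : H} {n : ℕ} (hg : Reach S g n) : len S g ≤ n := by
  obtain ⟨l, h1, h2, h3⟩ := hg
  obtain ⟨W, hW⟩ := walk_of_list S l h1 1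
  have h4 : (SimpleGraph.mulCayley S).dist 1 (1 * l.prod) ≤ n :=
    (SimpleGraph.dist_le W).trans (hW.trans h2)
  rw [one_mul, h3] at h4
  exact h4

end Reach

section Elements

variable {m : ℕ+}

theorem natCast_mem (p q : ℕ+) (n : ℤ) : (n : ℚ) ∈ A p q := intCast_mem _ n

/-- The element `(N, M)` of `G_{m,1}`. -/
def E (m : ℕ+) (N : ℤ) (M : ℤ) : Gpq m 1 := ⟨N, M, natCast_mem m 1 N⟩

theorem S1_inv {p q : ℕ+} : ∀ s ∈ S1 p q, s⁻¹ ∈ S1 p q := by
  intro s hs
  simp only [S1, Set.mem_insert_iff, Set.mem_singleton_iff] at hs ⊢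
  rcases hs with rfl | rfl | rfl | rfl <;> simp

theorem a_mem {p q : ℕ+} : (a : Gpq p q) ∈ S1 p q := by simp [S1]
theorem ai_mem {p q : ℕ+} : (a⁻¹ : Gpq p q) ∈ S1 p q := by simp [S1]
theorem t_mem {p q : ℕ+} : (t : Gpq p q) ∈ S1 p q := by simp [S1]
theorem ti_mem {p q : ℕ+} : (t⁻¹ : Gpq p q) ∈ S1 p q := by simp [S1]

theorem w_eq (m : ℕ+) : ((m : ℚ) / ((1 : ℕ+) : ℚ)) = (m : ℚ) := by simp

theorem a_pow {p q : ℕ+} (n : ℕ) : ((a : Gpq p q) ^ n).x = n ∧ ((a : Gpq p q) ^ n).k = 0 := by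
  induction n with
  | zero => simp
  | succ n ih =>
    rw [pow_succ]
    constructor
    · rw [mul_x, ih.1, ih.2]
      simp [a]
    · rw [mul_k, ih.2]
      simp [a]

theorem a_zpow {p q : ℕ+} (n : ℤ) : ((a : Gpq p q) ^ n).x = n ∧ ((a : Gpq p q) ^ n).k = 0 := by
  obtain ⟨j, rfl | rfl⟩ := n.eq_nat_or_neg
  · simpa using a_pow j
  · have := a_pow (p := p) (q := q) j
    rw [zpow_neg, zpow_natCast]
    constructor
    · rw [inv_x, this.1, this.2]
      simp
    · rw [inv_k, this.2]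
      simp

theorem t_pow {p q : ℕ+} (n : ℕ) : ((t : Gpq p q) ^ n).x = 0 ∧ ((t : Gpq p q) ^ n).k = n := by
  induction n with
  | zero => simp
  | succ n ih =>
    rw [pow_succ]
    constructor
    · rw [mul_x, ih.1, ih.2]
      simp [t]
    · rw [mul_k, ih.2]
      simp [t]

theorem t_zpow {p q : ℕ+} (n : ℤ) : ((t : Gpq p q) ^ n).x = 0 ∧ ((t : Gpq p q) ^ n).k = n := by
  obtain ⟨j, rfl | rfl⟩ := n.eq_nat_or_neg
  · simpa using t_pow j
  · have := t_pow (p := p) (q := q) j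
    rw [zpow_neg, zpow_natCast]
    constructor
    · rw [inv_x, this.1, this.2]
      simp
    · rw [inv_k, this.2]

theorem reach_a_zpow {p q : ℕ+} (n : ℤ) : Reach (S1 p q) ((a : Gpq p q) ^ n) n.natAbs := by
  obtain ⟨j, rfl | rfl⟩ := n.eq_nat_or_neg
  · simpa using Reach.pow a_mem j
  · rw [zpow_neg, zpow_natCast, ← inv_pow]
    simpa using Reach.pow ai_mem j

theorem reach_t_zpow {p q : ℕ+} (n : ℤ) : Reach (S1 p q) ((t : Gpq p q) ^ n) n.natAbs := by
  obtain ⟨j, rfl | rfl⟩ := n.eq_nat_or_neg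
  · simpa using Reach.pow t_mem j
  · rw [zpow_neg, zpow_natCast, ← inv_pow]
    simpa using Reach.pow ti_mem j

theorem E_succ (N : ℤ) (M : ℕ) (r N' : ℤ) (h : N = (m : ℤ) * N' + r) :
    E m N ((M + 1 : ℕ) : ℤ) = a ^ r * t * E m N' M := by
  have h1 := a_zpow (p := m) (q := 1) r
  ext
  · simp only [mul_x, mul_k, h1.1, h1.2, E, t, h]
    push_cast
    simp
    ring
  · simp only [mul_k, h1.2, E, t]
    push_cast
    ring

theorem pair (K : ℕ) (M : ℕ) : ∀ N : ℤ, -((K : ℤ) * (m : ℤ) ^ M) ≤ N → N + 1 ≤ (K : ℤ) * (m : ℤ) ^ M →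
    ∃ u v : ℕ, Reach (S1 m 1) (E m N M) u ∧ Reach (S1 m 1) (E m (N + 1) M) v ∧
      u + v + M ≤ (m : ℕ) * M + 2 * K + 2 * M := by
  have hmpos : (0 : ℤ) < (m : ℤ) := by
    have := m.pos
    exact_mod_cast this
  induction M with
  | zero =>
    intro N h1 h2
    rw [pow_zero, mul_one] at h1 h2
    refine ⟨N.natAbs, (N + 1).natAbs, ?_, ?_, ?_⟩
    · have : E m N ((0 : ℕ) : ℤ) = a ^ N := by
        have := a_zpow (p := m) (q := 1) N
        ext
        · rw [this.1]; rfl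
        · rw [this.2]; rfl
      rw [this]
      exact reach_a_zpow N
    · have : E m (N + 1) ((0 : ℕ) : ℤ) = a ^ (N + 1) := by
        have := a_zpow (p := m) (q := 1) (N + 1)
        ext
        · rw [this.1]; rfl
        · rw [this.2]; rfl
      rw [this]
      exact reach_a_zpow (N + 1)
    · omega
  | succ M ih =>
    intro N h1 h2
    let N' := N / (m : ℤ)
    let r := N % (m : ℤ)
    have hN : N = (m : ℤ) * N' + r := (Int.mul_ediv_add_emod N m).symm
    have hr0 : 0 ≤ r := Int.emod_nonneg _ hmpos.ne'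
    have hr1 : r < m := Int.emod_lt_of_pos _ hmpos
    have b1 : -((K : ℤ) * (m : ℤ) ^ M) ≤ N' := by
      rw [pow_succ] at h1
      by_contra hcon
      push Not at hcon
      have h3 : N' + 1 ≤ -((K : ℤ) * (m : ℤ) ^ M) := hcon
      nlinarith
    have b2 : N' + 1 ≤ (K : ℤ) * (m : ℤ) ^ M := by
      rw [pow_succ] at h2
      by_contra hcon
      push Not at hcon
      have h3 : (K : ℤ) * (m : ℤ) ^ M ≤ N' := by omega
      nlinarith
    obtain ⟨u, v, hu, hv, huv⟩ := ih N' b1 b2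
    refine ⟨r.natAbs + 1 + u, (r + 1 - m).natAbs + 1 + v, ?_, ?_, ?_⟩
    · rw [E_succ N M r N' hN]
      exact ((reach_a_zpow r).mul (Reach.gen t_mem)).mul hu
    · rw [E_succ (N + 1) M (r + 1 - m) (N' + 1) (by rw [hN]; ring)]
      exact ((reach_a_zpow _).mul (Reach.gen t_mem)).mul hv
    · have e1 : (r.natAbs : ℤ) = r := Int.natAbs_of_nonneg hr0
      have e2 : ((r + 1 - m).natAbs : ℤ) = m - 1 - r := by
        rw [← Int.natAbs_neg, Int.natAbs_of_nonneg (by omega)]
        ring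
      have e3 : ((u + v + M : ℕ) : ℤ) ≤ ((m : ℕ) * M + 2 * K + 2 * M : ℕ) := by exact_mod_cast huv
      have e4 : (((r.natAbs + 1 + u) + ((r + 1 - m).natAbs + 1 + v) + (M + 1) : ℕ) : ℤ) ≤
          (((m : ℕ) * (M + 1) + 2 * K + 2 * (M + 1) : ℕ) : ℤ) := by
        push_cast at e3 ⊢
        rw [e1.symm] at e2 ⊢
        rw [e1] at e2 ⊢
        push_cast [e2]
        simp only [Int.natCast_natAbs] at e1 e2
        rw [e1, e2]
        nlinarith
      exact_mod_cast e4

end Elements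

end Pool.Agent.H73.Gpq
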