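import Mathlib

set_option autoImplicit false

/-!
# Zero divisors in restricted enveloping algebras of abelian restricted Lie algebras

Over every imperfect field `k` of characteristic `p` there is an abelian restricted Lie algebra
without nonzero algebraic elements whose restricted enveloping algebra has a nonzero nilpotent.
-/

namespace Pool.Agent.H73.RestrictedZeroDiv

open Polynomial TensorProduct

universe u

section Basic

variable (k : Type u) [Field k] (K : Type u) [Field K] [Algebra k K]

/-- Pairs of polynomials over `K` with zero constant terms, as a vector space over `k`. -/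
noncomputable def LL : Submodule k (K[X] × K[X]) where
  carrier := {f | f.1.coeff 0 = 0 ∧ f.2.coeff 0 = 0}
  add_mem' := by
    intro a b ha hb
    simp only [Set.mem_ofPred_eq] at ha hb ⊢
    simp [ha.1, ha.2, hb.1, hb.2]
  zero_mem' := by simp
  smul_mem' := by
    intro c a ha
    simp only [Set.mem_ofPred_eq] at ha ⊢
    simp [ha.1, ha.2]

theorem mem_LL {f : K[X] × K[X]} : f ∈ LL k K ↔ f.1.coeff 0 = 0 ∧ f.2.coeff 0 = 0 := Iff.rfl

/-- The zero bracket. -/
@[reducible] noncomputable def lieR : LieRing (LL k K) where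
  bracket := fun _ _ => 0
  add_lie := by intro x y z; show (0 : LL k K) = 0 + 0; simp
  lie_add := by intro x y z; show (0 : LL k K) = 0 + 0; simp
  lie_self := by intro x; rfl
  leibniz_lie := by intro x y z; show (0 : LL k K) = 0 + 0; simp

attribute [local instance] lieR

theorem bracket_eq (x y : LL k K) : ⁅x, y⁆ = 0 := rfl

/-- The zero bracket is bilinear. -/
@[reducible] noncomputable def lieA : LieAlgebra k (LL k K) where
  lie_smul := by
    intro t x y
    rw [bracket_eq, bracket_eq, smul_zero]

attribute [local instance] lieA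

/-- the `p`-map: the componentwise `p`-th power. -/
noncomputable def pm (p : ℕ) (hp : p ≠ 0) : LL k K → LL k K := fun x =>
  ⟨(x : K[X] × K[X]) ^ p, by
    have h := (mem_LL k K).1 x.2
    refine (mem_LL k K).2 ⟨?_, ?_⟩
    · rw [Prod.pow_fst, Polynomial.coeff_zero_eq_eval_zero, Polynomial.eval_pow,
        ← Polynomial.coeff_zero_eq_eval_zero, h.1, zero_pow hp]
    · rw [Prod.pow_snd, Polynomial.coeff_zero_eq_eval_zero, Polynomial.eval_pow,
        ← Polynomial.coeff_zero_eq_eval_zero, h.2, zero_pow hp]⟩

theorem coe_pm (p : ℕ) (hp : p ≠ 0) (x : LL k K) :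
    ((pm k K p hp x : LL k K) : K[X] × K[X]) = (x : K[X] × K[X]) ^ p := rfl

theorem coe_pm_iter (p : ℕ) (hp : p ≠ 0) (n : ℕ) (x : LL k K) :
    (((pm k K p hp)^[n] x : LL k K) : K[X] × K[X]) = (x : K[X] × K[X]) ^ (p ^ n) := by
  induction n with
  | zero => simp
  | succ n ih =>
    rw [Function.iterate_succ_apply', coe_pm, ih, ← pow_mul, pow_succ]

theorem linInd_pow (u : K[X]) (hu : u.natDegree ≠ 0) (p : ℕ) (hp : 1 < p) :
    LinearIndependent k (fun n : ℕ => u ^ (p ^ n)) := by
  have h0 : u ≠ 0 := by
    rintro rfl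
    simp at hu
  have htK : Transcendental K u :=
    Polynomial.transcendental u hu
      (mem_nonZeroDivisors_of_ne_zero (by simpa using h0))
  have ht : Transcendental k u := htK.restrictScalars (algebraMap k K).injective
  have hinj := transcendental_iff_injective.1 ht
  have h1 : LinearIndependent k (fun n : ℕ => (X : k[X]) ^ n) := by
    have := (Polynomial.basisMonomials k).linearIndependent
    simpa [Polynomial.coe_basisMonomials, Polynomial.X_pow_eq_monomial, Function.comp_def] using this
  have h2 : LinearIndependent k (fun n : ℕ => (X : k[X]) ^ (p ^ n)) :=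
    h1.comp (fun n => p ^ n) (Nat.pow_right_injective hp)
  have h3 := h2.map' (Polynomial.aeval u : k[X] →ₐ[k] K[X]).toLinearMap
    (LinearMap.ker_eq_bot.2 hinj)
  simpa [Function.comp_def] using h3

theorem natDegree_ne_zero_of_coeff_zero {u : K[X]} (h : u.coeff 0 = 0) (hu : u ≠ 0) :
    u.natDegree ≠ 0 := by
  intro hd
  apply hu
  rw [Polynomial.eq_C_of_natDegree_eq_zero hd, h, C_0]

theorem linInd_iter (p : ℕ) (hp0 : p ≠ 0) (hp : 1 < p) (x : LL k K) (hx : x ≠ 0) :
    LinearIndependent k (fun n : ℕ => (pm k K p hp0)^[n] x) := by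
  have hm := (mem_LL k K).1 x.2
  have hx' : (x : K[X] × K[X]).1 ≠ 0 ∨ (x : K[X] × K[X]).2 ≠ 0 := by
    by_contra hcon
    push Not at hcon
    apply hx
    apply Subtype.ext
    exact Prod.ext hcon.1 hcon.2
  rcases hx' with h | h
  · have h1 := linInd_pow k K _ (natDegree_ne_zero_of_coeff_zero K hm.1 h) p hp
    refine LinearIndependent.of_comp
      ((LinearMap.fst k K[X] K[X]).comp (LL k K).subtype) ?_
    convert! h1 using 1
    funext n
    show (((pm k K p hp0)^[n] x : LL k K) : K[X] × K[X]).1 = _
    rw [coe_pm_iter, Prod.pow_fst]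
  · have h1 := linInd_pow k K _ (natDegree_ne_zero_of_coeff_zero K hm.2 h) p hp
    refine LinearIndependent.of_comp
      ((LinearMap.snd k K[X] K[X]).comp (LL k K).subtype) ?_
    convert! h1 using 1
    funext n
    show (((pm k K p hp0)^[n] x : LL k K) : K[X] × K[X]).2 = _
    rw [coe_pm_iter, Prod.pow_snd]

end Basic

section Lift

attribute [local instance 100] LieRing.ofAssociativeRing

variable {k : Type u} [Field k] {L : Type u} [LieRing L] [LieAlgebra k L]

/-- the defining relation of the restricted enveloping algebra -/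
def rel (k : Type u) [Field k] {L : Type u} [LieRing L] [LieAlgebra k L] (p : ℕ) (pmap : L → L) :
    UniversalEnvelopingAlgebra k L → UniversalEnvelopingAlgebra k L → Prop :=
  fun a b => ∃ x : L, a = (UniversalEnvelopingAlgebra.ι k x) ^ p ∧
    b = UniversalEnvelopingAlgebra.ι k (pmap x)

/-- the canonical map of `L` into its restricted enveloping algebra -/
noncomputable def can (k : Type u) [Field k] {L : Type u} [LieRing L] [LieAlgebra k L] (p : ℕ)
    (pmap : L → L) (x : L) : RingQuot (rel k p pmap) :=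
  RingQuot.mkAlgHom k (rel k p pmap) (UniversalEnvelopingAlgebra.ι k x)

theorem can_pmap (p : ℕ) (pmap : L → L) (x : L) :
    can k p pmap (pmap x) = (can k p pmap x) ^ p := by
  unfold can
  rw [← map_pow]
  exact (RingQuot.mkAlgHom_rel k ⟨x, rfl, rfl⟩).symm

theorem can_smul (p : ℕ) (pmap : L → L) (c : k) (x : L) :
    can k p pmap (c • x) = c • can k p pmap x := by
  unfold can
  rw [map_smul, map_smul]

theorem can_lie (p : ℕ) (pmap : L → L) (x y : L) :
    can k p pmap ⁅x, y⁆ = can k p pmap x * can k p pmap y - can k p pmap y * can k p pmap x := by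
  unfold can
  rw [LieHom.map_lie, LieRing.of_associative_ring_bracket, map_sub, map_mul, map_mul]

theorem can_comm (p : ℕ) (pmap : L → L) (x y : L) (h : ⁅x, y⁆ = 0) :
    Commute (can k p pmap x) (can k p pmap y) := by
  have h1 := can_lie (k := k) p pmap x y
  rw [h] at h1
  have h2 : can k p pmap (0 : L) = 0 := by
    unfold can
    rw [map_zero, map_zero]
  rw [h2] at h1
  exact (sub_eq_zero.1 h1.symm)

/-- Universal property towards commutative algebras. -/
theorem exists_lift (p : ℕ) (pmap : L → L) {T : Type u} [CommRing T] [Algebra k T]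
    (g : L →ₗ[k] T) (hab : ∀ x y : L, g ⁅x, y⁆ = 0) (hg : ∀ x : L, g (pmap x) = (g x) ^ p) :
    ∃ G : RingQuot (rel k p pmap) →ₐ[k] T, ∀ x : L, G (can k p pmap x) = g x := by
  let gL : L →ₗ⁅k⁆ T :=
    { g with
      map_lie' := by
        intro x y
        rw [LieRing.of_associative_ring_bracket, mul_comm, sub_self]
        exact hab x y }
  have hgL : ∀ x, gL x = g x := fun x => rfl
  let G0 : UniversalEnvelopingAlgebra k L →ₐ[k] T := UniversalEnvelopingAlgebra.lift k gL
  have hG0 : ∀ x, G0 (UniversalEnvelopingAlgebra.ι k x) = g x := by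
    intro x
    rw [← hgL]
    exact UniversalEnvelopingAlgebra.lift_ι_apply k gL x
  have hrel : ∀ ⦃a b : UniversalEnvelopingAlgebra k L⦄, rel k p pmap a b → G0 a = G0 b := by
    rintro a b ⟨x, rfl, rfl⟩
    rw [map_pow, hG0, hG0, hg]
  refine ⟨RingQuot.liftAlgHom k ⟨G0, hrel⟩, ?_⟩
  intro x
  unfold can
  rw [RingQuot.liftAlgHom_mkAlgHom_apply, hG0]

end Lift

section Tensor

variable (k : Type u) [Field k] (K : Type u) [Field K] [Algebra k K]

attribute [local instance] lieR lieA

/-- The map from pairs of polynomials to the tensor square. -/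
noncomputable def tmap : LL k K →ₗ[k] (K[X] ⊗[k] K[X]) :=
  (((Algebra.TensorProduct.includeLeft : K[X] →ₐ[k] K[X] ⊗[k] K[X]).toLinearMap.comp
    (LinearMap.fst k K[X] K[X])) +
   ((Algebra.TensorProduct.includeRight : K[X] →ₐ[k] K[X] ⊗[k] K[X]).toLinearMap.comp
    (LinearMap.snd k K[X] K[X]))).comp (LL k K).subtype

theorem tmap_apply (x : LL k K) :
    tmap k K x = (x : K[X] × K[X]).1 ⊗ₜ[k] 1 + 1 ⊗ₜ[k] (x : K[X] × K[X]).2 := rfl

theorem tmap_pm (p : ℕ) [Fact p.Prime] [CharP k p] (hp : p ≠ 0) (x : LL k K) :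
    tmap k K (pm k K p hp x) = (tmap k K x) ^ p := by
  have : CharP (K[X] ⊗[k] K[X]) p := by
    exact charP_of_injective_algebraMap (algebraMap k (K[X] ⊗[k] K[X])).injective p
  rw [tmap_apply, tmap_apply, coe_pm, add_pow_char, Algebra.TensorProduct.tmul_pow,
    Algebra.TensorProduct.tmul_pow, Prod.pow_fst, Prod.pow_snd]
  simp only [one_pow]

theorem tmul_ne (a : K) (ha : ∀ c : k, algebraMap k K c ≠ a) :
    (X : K[X]) ⊗ₜ[k] (C a * X : K[X]) - (C a * X : K[X]) ⊗ₜ[k] (X : K[X]) ≠ 0 := by
  have hli : LinearIndependent k ![(X : K[X]), (C a * X : K[X])] := by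
    rw [LinearIndependent.pair_iff]
    intro s t hst
    have h1 := congrArg (fun f => Polynomial.coeff f 1) hst
    simp only [coeff_add, coeff_smul, coeff_X_one, coeff_C_mul, mul_one, coeff_zero] at h1
    rw [Algebra.smul_def, Algebra.smul_def, mul_one] at h1
    have ht : t = 0 := by
      by_contra ht
      apply ha (- s / t)
      have ht' : algebraMap k K t ≠ 0 := by simpa using ht
      rw [map_div₀, map_neg, div_eq_iff ht']
      linear_combination (-1 : K) * h1
    subst ht
    rw [map_zero, zero_mul, add_zero] at h1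
    exact ⟨by simpa using h1, rfl⟩
  intro h0
  have hb := (hli.tmul_of_flat_left hli).injective
  have h1 : ((0 : Fin 2), (1 : Fin 2)) = ((1 : Fin 2), (0 : Fin 2)) := by
    apply hb
    simpa using sub_eq_zero.1 h0
  have h2 := congrArg Prod.fst h1
  exact absurd h2 (by decide)

/-- Over every imperfect field `k` of characteristic `p` there is an abelian restricted Lie algebra
without nonzero algebraic elements whose restricted enveloping algebra contains a nonzero
nilpotent element. -/
theorem exists_nilpotent (p : ℕ) [Fact p.Prime] (k : Type u) [Field k] [CharP k p] (t : k)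
    (ht : ∀ s : k, s ^ p ≠ t) :
    ∃ (L : Type u) (_ : LieRing L) (_ : LieAlgebra k L) (pmap : L → L),
      (∃ (A : Type u) (_ : Ring A) (_ : Algebra k A) (f : L →ₗ[k] A),
          Function.Injective f ∧
          (∀ x y : L, f ⁅x, y⁆ = f x * f y - f y * f x) ∧
          ∀ x : L, f (pmap x) = (f x) ^ p) ∧
      (∀ x y : L, ⁅x, y⁆ = 0) ∧
      (∀ x : L, x ≠ 0 → LinearIndependent k (fun n : ℕ => pmap^[n] x)) ∧
      ∃ w : RingQuot (rel k p pmap), w ≠ 0 ∧ w ^ p = 0 := by
  have hpp : p.Prime := Fact.out
  have hp0 : p ≠ 0 := hpp.ne_zero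
  have hp1 : 1 < p := hpp.one_lt
  let K := AlgebraicClosure k
  obtain ⟨a, ha⟩ : ∃ a : K, a ^ p = algebraMap k K t :=
    IsAlgClosed.exists_pow_nat_eq _ hpp.pos
  have hak : ∀ c : k, algebraMap k K c ≠ a := by
    intro c hc
    apply ht c
    apply (algebraMap k K).injective
    rw [map_pow, hc, ha]
  have : CharP K p := charP_of_injective_algebraMap (algebraMap k K).injective p
  refine ⟨LL k K, lieR k K, lieA k K, pm k K p hp0, ?_, ?_, ?_, ?_⟩
  · refine ⟨K[X] × K[X], inferInstance, inferInstance, (LL k K).subtype,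
      Subtype.val_injective, ?_, ?_⟩
    · intro x y
      rw [mul_comm, sub_self]
      rfl
    · intro x
      rfl
  · intro x y
    rfl
  · exact linInd_iter k K p hp0 hp1
  · let x1 : LL k K := ⟨(X, 0), by simp [mem_LL]⟩
    let x2 : LL k K := ⟨(C a * X, 0), by simp [mem_LL]⟩
    let x3 : LL k K := ⟨(0, X), by simp [mem_LL]⟩
    let x4 : LL k K := ⟨(0, C a * X), by simp [mem_LL]⟩
    let c := can k p (pm k K p hp0)
    have hcomm : ∀ x y, Commute (c x) (c y) := fun x y => can_comm p _ x y rfl
    have e2 : pm k K p hp0 x2 = t • pm k K p hp0 x1 := by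
      apply Subtype.ext
      rw [coe_pm, Submodule.coe_smul, coe_pm]
      apply Prod.ext
      · rw [Prod.pow_fst, Prod.smul_fst, Prod.pow_fst]
        show (C a * X : K[X]) ^ p = t • (X : K[X]) ^ p
        rw [mul_pow, ← C_pow, ha, Algebra.smul_def]
        rfl
      · rw [Prod.pow_snd, Prod.smul_snd, Prod.pow_snd]
        show (0 : K[X]) ^ p = t • (0 : K[X]) ^ p
        rw [zero_pow hp0, smul_zero]
    have e4 : pm k K p hp0 x4 = t • pm k K p hp0 x3 := by
      apply Subtype.ext
      rw [coe_pm, Submodule.coe_smul, coe_pm]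
      apply Prod.ext
      · rw [Prod.pow_fst, Prod.smul_fst, Prod.pow_fst]
        show (0 : K[X]) ^ p = t • (0 : K[X]) ^ p
        rw [zero_pow hp0, smul_zero]
      · rw [Prod.pow_snd, Prod.smul_snd, Prod.pow_snd]
        show (C a * X : K[X]) ^ p = t • (X : K[X]) ^ p
        rw [mul_pow, ← C_pow, ha, Algebra.smul_def]
        rfl
    obtain ⟨G, hG⟩ := exists_lift (k := k) p (pm k K p hp0) (tmap k K)
      (fun x y => (tmap k K).map_zero) (tmap_pm k K p hp0)
    have hG' : ∀ x, G (c x) = tmap k K x := hG
    have hne : c x1 * c x4 - c x2 * c x3 ≠ 0 := by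
      intro h0
      have h1 := congrArg G h0
      rw [map_sub, map_mul, map_mul, hG', hG', hG', hG', map_zero, tmap_apply, tmap_apply,
        tmap_apply, tmap_apply] at h1
      apply tmul_ne k K a hak
      simpa [x1, x2, x3, x4] using h1
    have : Nontrivial (RingQuot (rel k p (pm k K p hp0))) := ⟨⟨_, _, hne⟩⟩
    have : CharP (RingQuot (rel k p (pm k K p hp0))) p :=
      charP_of_injective_algebraMap
        (algebraMap k (RingQuot (rel k p (pm k K p hp0)))).injective p
    refine ⟨c x1 * c x4 - c x2 * c x3, hne, ?_⟩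
    have hc : Commute (c x1 * c x4) (c x2 * c x3) := by
      exact ((hcomm x1 x2).mul_right (hcomm x1 x3)).mul_left
        ((hcomm x4 x2).mul_right (hcomm x4 x3))
    rw [sub_pow_char_of_commute _ hc, (hcomm x1 x4).mul_pow, (hcomm x2 x3).mul_pow]
    have p1 : ∀ x, (c x) ^ p = c (pm k K p hp0 x) := fun x => (can_pmap p _ x).symm
    rw [p1, p1, p1, p1, e2, e4]
    have s1 : ∀ (r : k) x, c (r • x) = r • c x := fun r x => can_smul p _ r x
    rw [s1, s1, mul_smul_comm, smul_mul_assoc, sub_self]

end Tensor

end Pool.Agent.H73.RestrictedZeroDiv
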